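import Pool.Agent.H85.BR.Defs

/-!
# Metrics on the closed unit ball and maps between them: definitions
-/

open Set Metric MeasureTheory
open scoped ContDiff RealInnerProductSpace

noncomputable section

set_option maxSynthPendingDepth 3

namespace Pool.Agent.W9h56.BE

open Pool.Agent.W5h72.BR

variable {E : Type*} [NormedAddCommGroup E] [InnerProductSpace ℝ E]

/-- `g` is a simple metric on the closed unit ball `M` of `E` -/
def IsSimpleM (g : E → E →L[ℝ] E →L[ℝ] ℝ) : Prop := ∃ e L : E → E → E, Simple g e L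

/-- `g` is a (continuous) Riemannian metric on `M` -/
structure IsMetric (g : E → E →L[ℝ] E →L[ℝ] ℝ) : Prop where
  cont : Continuous g
  symm : ∀ x ∈ closedBall (0 : E) 1, ∀ v w, g x v w = g x w v
  pos : ∀ x ∈ closedBall (0 : E) 1, ∀ v, v ≠ 0 → 0 < g x v v

/-- the Riemannian distance in `M`: the infimum of the lengths of the `C¹` curves in `M` -/
def gd (g : E → E →L[ℝ] E →L[ℝ] ℝ) (x y : E) : ℝ :=
  sInf {l | ∃ c c' : ℝ → E, (∀ t ∈ Icc (0 : ℝ) 1, c t ∈ closedBall (0 : E) 1) ∧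
    (∀ t ∈ Icc (0 : ℝ) 1, HasDerivWithinAt c (c' t) (Icc 0 1) t) ∧
    ContinuousOn c' (Icc 0 1) ∧ c 0 = x ∧ c 1 = y ∧ l = ∫ t in (0 : ℝ)..1, √(g (c t) (c' t) (c' t))}

/-- `d_g ≤ d_{g'}` on `∂M × ∂M` -/
def BdryLE (g g' : E → E →L[ℝ] E →L[ℝ] ℝ) : Prop :=
  ∀ p ∈ sphere (0 : E) 1, ∀ q ∈ sphere (0 : E) 1, gd g p q ≤ gd g' p q

/-- `φ` is a `C¹` map `M → M`, the identity on `∂M` -/
structure IsBdryMap (φ : E → E) : Prop where
  smooth : ContDiff ℝ 1 φ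
  maps : MapsTo φ (closedBall (0 : E) 1) (closedBall (0 : E) 1)
  bdry : ∀ p ∈ sphere (0 : E) 1, φ p = p

/-- the pull-back `φ^* g'` -/
def pull (φ : E → E) (g' : E → E →L[ℝ] E →L[ℝ] ℝ) (x : E) : E →L[ℝ] E →L[ℝ] ℝ :=
  (g' (φ x)).bilinearComp (fderiv ℝ φ x) (fderiv ℝ φ x)

/-- `φ^* g' = g` on `M` -/
def IsIsometric (g g' : E → E →L[ℝ] E →L[ℝ] ℝ) (φ : E → E) : Prop :=
  ∀ x ∈ closedBall (0 : E) 1, pull φ g' x = g x

/-- there is a diffeomorphism `ψ` of `M` (with inverse `χ`) with `ψ = id` on `∂M` and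
`ψ^* g' = g` -/
def RelIsometric (g g' : E → E →L[ℝ] E →L[ℝ] ℝ) : Prop :=
  ∃ ψ χ : E → E, ContDiff ℝ ∞ ψ ∧ ContDiff ℝ ∞ χ ∧
    (∀ x ∈ closedBall (0 : E) 1, ψ x ∈ closedBall (0 : E) 1 ∧ χ (ψ x) = x) ∧
    (∀ y ∈ closedBall (0 : E) 1, χ y ∈ closedBall (0 : E) 1 ∧ ψ (χ y) = y) ∧
    (∀ p ∈ sphere (0 : E) 1, ψ p = p) ∧ IsIsometric g g' ψ

/-- the quotient of the norms `|v|_C / |v|_B` -/
def quot (B C : E →L[ℝ] E →L[ℝ] ℝ) (v : E) : ℝ := √(C v v / B v v)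

variable [FiniteDimensional ℝ E]

/-- the matrix of a bilinear form in an orthonormal basis of `E` -/
def gram (B : E →L[ℝ] E →L[ℝ] ℝ) :
    Matrix (Fin (Module.finrank ℝ E)) (Fin (Module.finrank ℝ E)) ℝ :=
  Matrix.of fun i j => B (stdOrthonormalBasis ℝ E i) (stdOrthonormalBasis ℝ E j)

/-- the density `√det B` -/
def dens (B : E →L[ℝ] E →L[ℝ] ℝ) : ℝ := √(gram B).det

/-- the Jacobian of `φ : (M, g) → (M, g')` -/
def jac (g g' : E → E →L[ℝ] E →L[ℝ] ℝ) (φ : E → E) (x : E) : ℝ :=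
  |(fderiv ℝ φ x).det| * dens (g' (φ x)) / dens (g x)

variable [MeasurableSpace E] [BorelSpace E]

/-- the volume of `(M, g)` -/
def vol (g : E → E →L[ℝ] E →L[ℝ] ℝ) : ℝ := ∫ x in closedBall (0 : E) 1, dens (g x)

/-- the average of the quotient `|v|_C / |v|_B` over the vectors `v` of the unit ball of `B`, that is
its average over the directions -/
def meanQuot (B C : E →L[ℝ] E →L[ℝ] ℝ) : ℝ := ⨍ v in {v : E | B v v < 1}, quot B C v

/-- the mean stretch of `φ : (M, g) → (M, g')` at `x`: the average of `|dφ(v)|_{g'} / |v|_g` over the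
directions `v` -/
def stretch (g g' : E → E →L[ℝ] E →L[ℝ] ℝ) (φ : E → E) (x : E) : ℝ :=
  meanQuot (g x) (pull φ g' x)

/-- the integral of the mean stretch over `(M, g)` -/
def totalStretch (g g' : E → E →L[ℝ] E →L[ℝ] ℝ) (φ : E → E) : ℝ :=
  ∫ x in closedBall (0 : E) 1, stretch g g' φ x * dens (g x)

/-- `φ` is a bijection of `M` and its mean stretch is at most `1 + c (J - 1)`, where `J` is the
Jacobian -/
def InCone (c : ℝ) (g g' : E → E →L[ℝ] E →L[ℝ] ℝ) (φ : E → E) : Prop :=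
  BijOn φ (closedBall (0 : E) 1) (closedBall (0 : E) 1) ∧
  ∀ x ∈ closedBall (0 : E) 1, stretch g g' φ x ≤ 1 + c * (jac g g' φ x - 1)

end Pool.Agent.W9h56.BE
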