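import Pool.Agent.H85.BE.Vol

/-!
# Rigidity in a cone about the conformal class
-/

open Set Metric Filter Topology MeasureTheory
open scoped ContDiff RealInnerProductSpace ENNReal

noncomputable section

set_option maxSynthPendingDepth 3

namespace Pool.Agent.W9h56.BE

open Pool.Agent.W5h72.BR

variable {E : Type*} [NormedAddCommGroup E] [InnerProductSpace ℝ E] [FiniteDimensional ℝ E]
  [MeasurableSpace E] [BorelSpace E]

variable {g g' : E → E →L[ℝ]
    E →L[ℝ] ℝ}
  {e L e' L' : E → E → E}
  {φ : E → E}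


lemma det_pull (φ : E → E) (g' : E → E →L[ℝ] E →L[ℝ] ℝ) (x : E) :
    (gram (pull φ g' x)).det = (fderiv ℝ φ x).det ^ 2 * (gram (g' (φ x))).det := by
  rw [← det_gop, ← det_gop]
  have h1 : ((gop (pull φ g' x) : E →L[ℝ] E) : E →ₗ[ℝ] E) =
      (LinearMap.adjoint ((fderiv ℝ φ x : E →L[ℝ] E) : E →ₗ[ℝ] E)) ∘ₗ
        (((gop (g' (φ x)) : E →L[ℝ] E) : E →ₗ[ℝ] E) ∘ₗ
          ((fderiv ℝ φ x : E →L[ℝ] E) : E →ₗ[ℝ] E)) := by
    ext1 v
    refine ext_inner_right ℝ fun w => ?_
    simp only [LinearMap.comp_apply, LinearMap.adjoint_inner_left, ContinuousLinearMap.coe_coe,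
      inner_gop, pull_apply]
  rw [h1, LinearMap.det_comp, LinearMap.det_comp, det_adj, ContinuousLinearMap.det]
  ring

lemma dens_pull (φ : E → E) (g' : E → E →L[ℝ] E →L[ℝ] ℝ) (x : E) :
    dens (pull φ g' x) = |(fderiv ℝ φ x).det| * dens (g' (φ x)) := by
  rw [dens, det_pull, Real.sqrt_mul (sq_nonneg _), Real.sqrt_sq_eq_abs, dens]

lemma dens_smul {c : ℝ} (hc : 0 ≤ c) (B : E →L[ℝ] E →L[ℝ] ℝ) :
    dens (c • B) = √c ^ Module.finrank ℝ E * dens B := by
  have h1 : gram (c • B) = c • gram B := by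
    ext i j
    simp [gram]
  rw [dens, h1, Matrix.det_smul, Fintype.card_fin, Real.sqrt_mul (pow_nonneg hc _), dens]
  congr 1
  rw [Real.sqrt_eq_iff_mul_self_eq (pow_nonneg hc _) (by positivity), ← mul_pow,
    Real.mul_self_sqrt hc]

/-- change of variables -/
lemma int_jac (hg : IsMetric g) (hg' : IsMetric g') (hφ : IsBdryMap φ)
    (hbij : BijOn φ (closedBall (0 : E) 1) (closedBall (0 : E) 1)) :
    ∫ x in closedBall (0 : E) 1, jac g g' φ x * dens (g x) = vol g' := by
  have h1 := integral_image_eq_integral_abs_det_fderiv_smul (volume : Measure E)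
    (s := closedBall (0 : E) 1) (f := φ) (f' := fderiv ℝ φ) measurableSet_closedBall
    (fun x _ => ((hφ.smooth.differentiable (by norm_num)) x).hasFDerivAt.hasFDerivWithinAt)
    hbij.injOn fun y => dens (g' y)
  rw [hbij.image_eq] at h1
  rw [vol, h1]
  refine setIntegral_congr_fun measurableSet_closedBall fun x hx => ?_
  have := (dens_pos hg hx).ne'
  simp only [jac, smul_eq_mul]
  field_simp

lemma cont_jac (hg : IsMetric g) (hg' : IsMetric g') (hφ : IsBdryMap φ) :
    ContinuousOn (fun x => jac g g' φ x) (closedBall (0 : E) 1) := by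
  have h1 : Continuous (fderiv ℝ φ) := hφ.smooth.continuous_fderiv (by norm_num)
  have h2 : Continuous fun x => |(fderiv ℝ φ x).det| * dens (g' (φ x)) :=
    (ContinuousLinearMap.continuous_det.comp h1).abs.mul
      ((continuous_dens hg'.cont).comp hφ.smooth.continuous)
  exact h2.continuousOn.div (continuous_dens hg.cont).continuousOn fun x hx => (dens_pos hg hx).ne'

/-- the cone inequality -/
theorem cone_ge (hn : 0 < Module.finrank ℝ E) (h : Simple g e L) (hg : IsMetric g') (hφ : IsBdryMap φ)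
    (hd : ∀ p ∈ sphere (0 : E) 1, ∀ q ∈ sphere (0 : E) 1, gdist g p q ≤ gdist g' p q)
    (hbij : BijOn φ (closedBall (0 : E) 1) (closedBall (0 : E) 1))
    (hcone : ∀ x ∈ closedBall (0 : E) 1,
      √(ntr (g x) (pull φ g' x)) ≤ 1 + (jac g g' φ x - 1) / Module.finrank ℝ E) :
    ∫ x in closedBall (0 : E) 1, ((1 + (jac g g' φ x - 1) / Module.finrank ℝ E) * dens (g x) -
      √(ntr (g x) (pull φ g' x)) * dens (g x)) ≤ (vol g' - vol g) / Module.finrank ℝ E ∧ vol g ≤ vol g' := by
  have hgm := Simple_isMetric h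
  have hcs := cont_sqrt hgm hg hφ
  have hcd := (continuous_dens hgm.cont).continuousOn (s := closedBall (0 : E) 1)
  have hcj := cont_jac hgm hg hφ
  have h1 := main_one hn h hg hφ hd
  have hn' : (0 : ℝ) < Module.finrank ℝ E := by exact_mod_cast hn
  have e1 : ∀ x, (1 + (jac g g' φ x - 1) / Module.finrank ℝ E) * dens (g x) =
      (1 - 1 / Module.finrank ℝ E) * dens (g x) + (1 / Module.finrank ℝ E) * (jac g g' φ x * dens (g x)) := fun x => by
    field_simp; ring
  have i1 : IntegrableOn (fun x => (1 - 1 / (Module.finrank ℝ E : ℝ)) * dens (g x)) (closedBall (0 : E) 1) :=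
    intOn (continuousOn_const.mul hcd)
  have i2 : IntegrableOn (fun x => (1 / (Module.finrank ℝ E : ℝ)) * (jac g g' φ x * dens (g x)))
      (closedBall (0 : E) 1) := intOn (continuousOn_const.mul (hcj.mul hcd))
  have i3 : IntegrableOn (fun x => √(ntr (g x) (pull φ g' x)) * dens (g x))
      (closedBall (0 : E) 1) := intOn (hcs.mul hcd)
  have i4 : IntegrableOn (fun x => (1 + (jac g g' φ x - 1) / Module.finrank ℝ E) * dens (g x))
      (closedBall (0 : E) 1) := by
    simp only [e1]; exact i1.add i2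
  have e2 : ∫ x in closedBall (0 : E) 1, (1 + (jac g g' φ x - 1) / Module.finrank ℝ E) * dens (g x) =
      vol g + (vol g' - vol g) / Module.finrank ℝ E := by
    simp only [e1]
    rw [integral_add i1 i2, integral_const_mul, integral_const_mul, int_jac hgm hg hφ hbij]
    rw [← vol]
    field_simp; ring
  have e3 := integral_sub i4 i3
  have h2 : 0 ≤ ∫ x in closedBall (0 : E) 1, ((1 + (jac g g' φ x - 1) / Module.finrank ℝ E) * dens (g x) -
      √(ntr (g x) (pull φ g' x)) * dens (g x)) := by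
    refine setIntegral_nonneg measurableSet_closedBall fun x hx => ?_
    rw [← sub_mul]
    exact mul_nonneg (sub_nonneg.2 (hcone x hx)) (dens_pos hgm hx).le
  rw [e2] at e3
  constructor
  · rw [e3]; linarith
  · rw [e3] at h2
    have h3 : 0 ≤ (vol g' - vol g) / Module.finrank ℝ E := by linarith
    have h4 := mul_nonneg h3 hn'.le
    rw [div_mul_cancel₀ _ hn'.ne'] at h4
    linarith

lemma bern_pow {s : ℝ} (hs : 0 ≤ s) (hn : 2 ≤ Module.finrank ℝ E) (h : s ≤ 1 + (s ^ Module.finrank ℝ E - 1) / Module.finrank ℝ E)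
    (h' : 1 + (s ^ Module.finrank ℝ E - 1) / Module.finrank ℝ E ≤ s) : s = 1 := by
  have hn' : (0 : ℝ) < Module.finrank ℝ E := by exact_mod_cast (by omega : 0 < Module.finrank ℝ E)
  by_contra hne
  have h1 := bern_lt hs hne (r := Module.finrank ℝ E) (by exact_mod_cast (by omega : 1 < Module.finrank ℝ E))
  rw [Real.rpow_natCast] at h1
  have h2 : (s ^ Module.finrank ℝ E - 1) / Module.finrank ℝ E ≤ s - 1 := by linarith
  rw [div_le_iff₀ hn'] at h2
  linarith

/-- the equality case -/
theorem cone_eq (hn : 2 ≤ Module.finrank ℝ E) (h : Simple g e L) (hg : IsMetric g') (hφ : IsBdryMap φ)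
    (hd : ∀ p ∈ sphere (0 : E) 1, ∀ q ∈ sphere (0 : E) 1, gdist g p q ≤ gdist g' p q)
    (hbij : BijOn φ (closedBall (0 : E) 1) (closedBall (0 : E) 1))
    (hcone : ∀ x ∈ closedBall (0 : E) 1,
      √(ntr (g x) (pull φ g' x)) ≤ 1 + (jac g g' φ x - 1) / Module.finrank ℝ E) (hvol : vol g' ≤ vol g) :
    ∀ x ∈ closedBall (0 : E) 1, pull φ g' x = g x := by
  have hn0 : 0 < Module.finrank ℝ E := by omega
  have hgm := Simple_isMetric h
  have hcs := cont_sqrt hgm hg hφ
  have hcd := (continuous_dens hgm.cont).continuousOn (s := closedBall (0 : E) 1)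
  have hcj := cont_jac hgm hg hφ
  have hn' : (0 : ℝ) < Module.finrank ℝ E := by exact_mod_cast hn0
  obtain ⟨h1, h2⟩ := cone_ge hn0 h hg hφ hd hbij hcone
  have hveq : vol g' = vol g := le_antisymm hvol h2
  rw [hveq, sub_self, zero_div] at h1
  have h3 := zero_of_int (f := fun x => (1 + (jac g g' φ x - 1) / Module.finrank ℝ E) * dens (g x) -
      √(ntr (g x) (pull φ g' x)) * dens (g x))
    (((continuousOn_const.add ((hcj.sub continuousOn_const).div_const _)).mul hcd).sub
      (hcs.mul hcd)) (fun x hx => by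
        rw [← sub_mul]
        exact mul_nonneg (sub_nonneg.2 (hcone x hx)) (dens_pos hgm hx).le) h1
  have h4 : ∀ x ∈ closedBall (0 : E) 1,
      √(ntr (g x) (pull φ g' x)) = 1 + (jac g g' φ x - 1) / Module.finrank ℝ E := by
    intro x hx
    have h5 := h3 x hx
    rw [← sub_mul] at h5
    rcases mul_eq_zero.1 h5 with h6 | h6
    · linarith
    · exact absurd h6 (dens_pos hgm hx).ne'
  have h5 : ∫ x in closedBall (0 : E) 1, √(ntr (g x) (pull φ g' x)) * dens (g x) ≤ vol g := by
    have e1 : ∀ x ∈ closedBall (0 : E) 1, √(ntr (g x) (pull φ g' x)) * dens (g x) =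
        (1 - 1 / Module.finrank ℝ E) * dens (g x) + (1 / Module.finrank ℝ E) * (jac g g' φ x * dens (g x)) := fun x hx => by
      rw [h4 x hx]
      field_simp; ring
    rw [setIntegral_congr_fun measurableSet_closedBall e1]
    have i1 : IntegrableOn (fun x => (1 - 1 / (Module.finrank ℝ E : ℝ)) * dens (g x)) (closedBall (0 : E) 1) :=
      intOn (continuousOn_const.mul hcd)
    have i2 : IntegrableOn (fun x => (1 / (Module.finrank ℝ E : ℝ)) * (jac g g' φ x * dens (g x)))
        (closedBall (0 : E) 1) := intOn (continuousOn_const.mul (hcj.mul hcd))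
    rw [integral_add i1 i2, integral_const_mul, integral_const_mul, int_jac hgm hg hφ hbij, hveq,
      ← vol]
    apply le_of_eq
    field_simp; ring
  have h6 := conf_ae hn0 h hg hφ hd h5
  have h7 : ∀ x ∈ closedBall (0 : E) 1, √(ntr (g x) (pull φ g' x)) = 1 := by
    refine all_of_ae hcs continuousOn_const ?_
    filter_upwards [h6, ae_restrict_mem measurableSet_ball] with x hx hxb
    have hxM := ball_subset_closedBall hxb
    have hnn := ntr_nonneg hgm hg hφ hxM
    have h8 := congrArg dens hx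
    rw [dens_pull, dens_smul hnn] at h8
    have h9 : jac g g' φ x = √(ntr (g x) (pull φ g' x)) ^ Module.finrank ℝ E := by
      rw [jac, h8, mul_div_assoc, div_self (dens_pos hgm hxM).ne', mul_one]
    have h10 := h4 x hxM
    rw [h9] at h10
    exact bern_pow (Real.sqrt_nonneg _) hn h10.le h10.ge
  refine all_of_ae (continuous_pull hg.cont hφ.smooth).continuousOn hgm.cont.continuousOn ?_
  filter_upwards [h6, ae_restrict_mem measurableSet_ball] with x hx hxb
  have hxM := ball_subset_closedBall hxb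
  have h8 : ntr (g x) (pull φ g' x) = 1 := by
    rw [← Real.sq_sqrt (ntr_nonneg hgm hg hφ hxM), h7 x hxM, one_pow]
  rw [hx, h8, one_smul]

end Pool.Agent.W9h56.BE
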