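import Pool.Agent.H85.BE.Ton

/-!
# Densities, traces and the basic inequality
-/

open Set Metric Filter Topology MeasureTheory
open scoped ContDiff RealInnerProductSpace ENNReal

noncomputable section

set_option maxSynthPendingDepth 3

namespace Pool.Agent.W9h56.BE

open Pool.Agent.W5h72.BR

variable {E : Type*} [NormedAddCommGroup E] [InnerProductSpace ℝ E] [FiniteDimensional ℝ E]


/-- the normalised trace `tr_g(h) / Module.finrank ℝ E` -/
def ntr (B C : E →L[ℝ] E →L[ℝ] ℝ) : ℝ := ((gram B)⁻¹ * gram C).trace / Module.finrank ℝ E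

lemma det_gop (B : E →L[ℝ] E →L[ℝ] ℝ) :
    LinearMap.det (gop B : E →L[ℝ] E).toLinearMap = (gram B).det := by
  rw [← LinearMap.det_toMatrix (stdOrthonormalBasis ℝ E).toBasis, ← Matrix.det_transpose]
  congr 1
  ext i j
  rw [Matrix.transpose_apply, LinearMap.toMatrix_apply]
  simp only [OrthonormalBasis.coe_toBasis, OrthonormalBasis.coe_toBasis_repr_apply,
    OrthonormalBasis.repr_apply_apply, ContinuousLinearMap.coe_coe]
  rw [real_inner_comm, inner_gop]
  rfl

lemma frame_trace {B : E →L[ℝ] E →L[ℝ] ℝ} {A : E ≃ₗ[ℝ] E}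
    (hA : ∀ v w, B (A v) (A w) = inner ℝ v w) (C : E →L[ℝ] E →L[ℝ] ℝ) :
    ntr B C = (∑ i, C (A (stdOrthonormalBasis ℝ E i))
      (A (stdOrthonormalBasis ℝ E i))) / Module.finrank ℝ E := by
  set b := stdOrthonormalBasis ℝ E with hb
  set M : Matrix (Fin (Module.finrank ℝ E)) (Fin (Module.finrank ℝ E)) ℝ := Matrix.of fun i j => inner ℝ (b i) (A (b j)) with hM
  have hAb : ∀ j, A (b j) = ∑ i, M i j • b i := fun j => by
    have := b.sum_repr' (A (b j))
    rw [← this]
    rfl
  have key : ∀ C : E →L[ℝ] E →L[ℝ] ℝ, ∀ i j, (M.transpose * gram C * M) i j =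
      C (A (b i)) (A (b j)) := by
    intro C i j
    rw [hAb i, hAb j]
    simp only [Matrix.mul_apply, Matrix.transpose_apply, gram, Matrix.of_apply, map_sum, map_smul,
      FunLike.coe_sum, Finset.sum_apply, smul_apply, smul_eq_mul, Finset.sum_mul, Finset.mul_sum]
    refine Finset.sum_congr rfl fun k _ => Finset.sum_congr rfl fun l _ => ?_
    rw [← hb]
    ring
  have h1 : M.transpose * gram B * M = 1 := by
    ext i j
    rw [key, hA, Matrix.one_apply]
    exact orthonormal_iff_ite.1 b.orthonormal i j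
  have h2 : M * M.transpose * gram B = 1 := by
    rw [Matrix.mul_assoc]
    exact mul_eq_one_comm.1 h1
  have h3 : (gram B)⁻¹ = M * M.transpose := Matrix.inv_eq_left_inv h2
  rw [ntr, h3, Matrix.mul_assoc, Matrix.trace_mul_comm, Matrix.trace]
  congr 1
  refine Finset.sum_congr rfl fun i _ => ?_
  rw [Matrix.diag_apply, key]


variable {g g' : E → E →L[ℝ]
    E →L[ℝ] ℝ}
  {e L e' L' : E → E → E}
  {φ : E → E}

lemma frame (hg : IsMetric g) {x : E} (hx : x ∈ closedBall (0 : E) 1) :
    ∃ A : E ≃ₗ[ℝ] E, (∀ v w, g x (A v) (A w) = inner ℝ v w) ∧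
      |LinearMap.det ((gop (g x) : E →L[ℝ] E).toLinearMap ∘ₗ A.toLinearMap)| = dens (g x) ∧
      0 < (gram (g x)).det := by
  obtain ⟨A, h1, h2, h3⟩ := exists_frame (hg.symm x hx) (hg.pos x hx)
  rw [det_gop] at h2 h3
  exact ⟨A, h1, h2, h3⟩

lemma dens_pos (hg : IsMetric g) {x : E} (hx : x ∈ closedBall (0 : E) 1) : 0 < dens (g x) := by
  obtain ⟨A, h1, h2, h3⟩ := frame hg hx
  exact Real.sqrt_pos.2 h3

lemma continuous_gram (hg : Continuous g) : Continuous fun x => gram (g x) := by
  refine continuous_matrix fun i j => ?_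
  exact (hg.clm_apply continuous_const).clm_apply continuous_const

lemma continuous_dens (hg : Continuous g) : Continuous fun x => dens (g x) :=
  (continuous_gram hg).matrix_det.sqrt

lemma continuousOn_ntr (hg : IsMetric g) {k : E → E →L[ℝ] E →L[ℝ] ℝ} (hk : Continuous k) :
    ContinuousOn (fun x => ntr (g x) (k x)) (closedBall (0 : E) 1) := by
  intro x hx
  obtain ⟨A, h1, h2, h3⟩ := frame hg hx
  have hG := continuous_gram hg.cont
  have hK := continuous_gram hk
  have h4 : ContinuousAt (fun x => ((gram (g x)).det)⁻¹ *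
      ((gram (g x)).adjugate * gram (k x)).trace) x := by
    refine ContinuousAt.mul ?_ ?_
    · exact hG.matrix_det.continuousAt.inv₀ h3.ne'
    · exact ((hG.matrix_adjugate.matrix_mul hK).matrix_trace).continuousAt
  have h5 : (fun x => ntr (g x) (k x)) = fun x => (((gram (g x)).det)⁻¹ *
      ((gram (g x)).adjugate * gram (k x)).trace) / Module.finrank ℝ E := by
    ext x
    rw [ntr, Matrix.inv_def, Ring.inverse_eq_inv', Matrix.smul_mul, Matrix.trace_smul, smul_eq_mul]
  rw [h5]
  exact (h4.div_const _).continuousWithinAt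

end Pool.Agent.W9h56.BE
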