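import Pool.Agent.H85.BE.Concat

/-!
# The equality case for an arbitrary continuous metric
-/

open Set Metric Filter Topology MeasureTheory
open scoped ContDiff RealInnerProductSpace ENNReal

noncomputable section

set_option maxSynthPendingDepth 3

namespace Pool.Agent.W9h56.BE

open Pool.Agent.W5h72.BR

variable {E : Type*} [NormedAddCommGroup E] [InnerProductSpace ℝ E]

variable {g g' : E → E →L[ℝ] E →L[ℝ] ℝ} {e L e' L' : E → E → E} {φ : E → E}

/-- the pieces of the length -/
lemma KP_split (h : Simple g e L) {p q : E} {γ u : ℝ → E} (hγ : IsGeod g γ u)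
    (h0 : γ 0 = p) (h1 : γ 1 = q) {t : ℝ} (ht : t ∈ Icc (0 : ℝ) 1) :
    KP e L φ g' (γ t, q) = ∫ s in t..1, √(pull φ g' (γ s) (u s) (u s)) ∧
      KP e L φ g' (γ t, p) = ∫ s in (0 : ℝ)..t, √(pull φ g' (γ s) (u s) (u s)) := by
  set k : ℝ → ℝ := fun s => √(pull φ g' (γ s) (u s) (u s)) with hk
  constructor
  · rw [KP_eq h (hγ.reparam ht one_mem01) (by simp) (by simp [h1])]
    have h2 : ∀ r : ℝ, √(pull φ g' (γ (t + r * (1 - t))) ((1 - t) • u (t + r * (1 - t)))
        ((1 - t) • u (t + r * (1 - t)))) = (1 - t) * k (t + (1 - t) * r) := by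
      intro r
      rw [mul_comm r]
      simp only [map_smul, smul_apply, smul_eq_mul, hk]
      rw [← mul_assoc, Real.sqrt_mul (mul_self_nonneg _),
        Real.sqrt_mul_self (sub_nonneg.2 ht.2)]
    simp only [h2]
    rw [intervalIntegral.integral_const_mul, ← smul_eq_mul,
      intervalIntegral.smul_integral_comp_add_mul]
    simp
  · rw [KP_eq h (hγ.reparam ht zero_mem01) (by simp) (by simp [h0])]
    have h2 : ∀ r : ℝ, √(pull φ g' (γ (t + r * (0 - t))) ((0 - t) • u (t + r * (0 - t)))
        ((0 - t) • u (t + r * (0 - t)))) = t * k (t - t * r) := by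
      intro r
      rw [show t + r * (0 - t) = t - t * r by ring]
      simp only [map_smul, smul_apply, smul_eq_mul, hk]
      rw [← mul_assoc, show (0 - t) * (0 - t) = t * t by ring,
        Real.sqrt_mul (mul_self_nonneg _), Real.sqrt_mul_self ht.1]
    simp only [h2]
    rw [intervalIntegral.integral_const_mul, ← smul_eq_mul,
      intervalIntegral.smul_integral_comp_sub_mul]
    simp

lemma KP_add (h : Simple g e L) (hg : Continuous g') (hφ : ContDiff ℝ 1 φ) {x p q : E}
    (hx : x ∈ seg g p q) :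
    KP e L φ g' (x, p) + KP e L φ g' (x, q) = KP e L φ g' (p, q) := by
  obtain ⟨γ, u, hγ, h0, h1, t, ht, rfl⟩ := hx
  obtain ⟨k1, k2⟩ := KP_split (φ := φ) (g' := g') h hγ h0 h1 ht
  have hkc := cont_speed hg hφ (Simple.isCurve_geod hγ)
  rw [k1, k2, KP_eq h hγ h0 h1, intervalIntegral.integral_add_adjacent_intervals]
  · refine ContinuousOn.intervalIntegrable ?_
    rw [uIcc_of_le ht.1]; exact hkc.mono (Icc_subset_Icc_right ht.2)
  · refine ContinuousOn.intervalIntegrable ?_
    rw [uIcc_of_le ht.2]; exact hkc.mono (Icc_subset_Icc_left ht.1)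

variable [FiniteDimensional ℝ E]

/-- comparison along a path on the boundary -/
lemma path_le (h : Simple g e L) (hg : IsMetric g') (hφ : IsBdryMap φ)
    (hd : ∀ p ∈ sphere (0 : E) 1, ∀ q ∈ sphere (0 : E) 1, gdist g p q ≤ gdist g' p q)
    (hlen : ∀ p ∈ sphere (0 : E) 1, ∀ q ∈ sphere (0 : E) 1, p ≠ q →
      KP e L φ g' (p, q) = rho g L p q)
    {x : E} (hx : ‖x‖ < 1) {p q : E} (hp : p ∈ sphere (0 : E) 1) (hq : q ∈ sphere (0 : E) 1)
    (hne : ∀ s ∈ Icc (0 : ℝ) 1, (1 - s) • p + s • q ≠ 0) :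
    KP e L φ g' (x, p) - rho g L x p ≤ KP e L φ g' (x, q) - rho g L x q := by
  have hxM := mem_of_norm_lt hx
  set b : ℝ → E := fun s => (1 - s) • p + s • q with hb
  have hbc : Continuous b := by rw [hb]; fun_prop
  set c : ℝ → E := fun s => proj (b s) with hc
  have hcS : ∀ s, b s ≠ 0 → c s ∈ sphere (0 : E) 1 := fun s hs => proj_mem hs
  have hcd : ∀ s, b s ≠ 0 → ∃ v, HasDerivAt c v s := by
    intro s hs
    have k1 : HasDerivAt b (-p + q) s := by
      have k2 : HasDerivAt (fun s : ℝ => (1 - s) • p) (-p) s := by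
        have := ((hasDerivAt_id s).const_sub 1).smul_const p
        simpa using this
      have k3 : HasDerivAt (fun s : ℝ => s • q) q s := by
        simpa using (hasDerivAt_id s).smul_const q
      exact k2.add k3
    exact ⟨_, HasFDerivAt.comp_hasDerivAt (l := proj (E := E)) s (hasFDerivAt_proj hs) k1⟩
  set F : ℝ → ℝ := fun s => KP e L φ g' (x, c s) - rho g L x (c s) with hF
  have hcc : ContinuousOn c (Icc 0 1) := fun s hs => by
    obtain ⟨v, hv⟩ := hcd s (hne s hs)
    exact hv.continuousAt.continuousWithinAt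
  have hFc : ContinuousOn F (Icc 0 1) := by
    have k1 : Continuous fun y : E => KP e L φ g' (x, y) :=
      (continuous_KP h hg.cont hφ.smooth).comp (by fun_prop)
    have k2 : Continuous fun y : E => rho g L x y :=
      (continuous_rho h).comp (f := fun y : E => (x, y)) (by fun_prop)
    exact (k1.comp_continuousOn hcc).sub (k2.comp_continuousOn hcc)
  have key := image_le_of_liminf_slope_right_le_deriv_boundary (f := fun s => -F s) (a := 0)
    (b := 1) hFc.neg (B := fun _ => -F 0) (B' := fun _ => 0) le_rfl continuousOn_const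
    (fun s _ => hasDerivWithinAt_const _ _ _) ?_ (x := 1) ⟨zero_le_one, le_rfl⟩
  · have e0 : c 0 = p := by
      simp only [hc, hb, sub_zero, one_smul, zero_smul, add_zero]; exact proj_of_mem hp
    have e1 : c 1 = q := by
      simp only [hc, hb, sub_self, one_smul, zero_smul, zero_add]; exact proj_of_mem hq
    simp only [hF, e0, e1] at key
    linarith
  · intro s hs r hr
    have hs' : s ∈ Icc (0 : ℝ) 1 := Ico_subset_Icc_self hs
    have hbs := hne s hs'
    have hPS := hcS s hbs
    have hPM := mem_of_sphere hPS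
    obtain ⟨Q, hQ, hPQ, hxQ⟩ := h.exists_exit hPS hx
    have hQM := mem_of_sphere hQ
    -- the defect
    set δ : ℝ → ℝ := fun z => rho g L x (c z) + rho g L x Q - rho g L Q (c z) with hδ
    have hA : KP e L φ g' (x, Q) - rho g L x Q = -F s := by
      have k1 := KP_add (φ := φ) (g' := g') h hg.cont hφ.smooth hxQ
      have k2 := h.rho_add hPM hQM hxQ
      rw [hlen _ hPS _ hQ hPQ] at k1
      simp only [hF]
      linarith
    have hnear : ∀ᶠ z in 𝓝 s, b z ≠ 0 :=
      (isOpen_compl_singleton.preimage hbc).mem_nhds (show b s ∈ ({0}ᶜ : Set E) from hbs)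
    have hδ0 : δ s = 0 := by
      simp only [hδ]
      have k2 := h.rho_add hPM hQM hxQ
      rw [h.rho_symm hQM hPM]
      linarith
    have hδn : ∀ z, b z ≠ 0 → 0 ≤ δ z := by
      intro z hz
      have hzM := mem_of_sphere (hcS z hz)
      have k1 := h.triangle hQM hxM hzM
      rw [h.rho_symm hQM hxM] at k1
      simp only [hδ]
      linarith
    have hlow : ∀ z, b z ≠ 0 → F s - δ z ≤ F z := by
      intro z hz
      have hzS := hcS z hz
      have hzM := mem_of_sphere hzS
      have k1 := gdist_le_KP (φ := φ) h hg.cont hφ hxM hzS hQ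
      have k2 := hd _ hzS _ hQ
      rw [h.gdist_eq hzM hQM, h.rho_symm hzM hQM] at k2
      simp only [hF, hδ] at hA ⊢
      linarith
    obtain ⟨v, hv⟩ := hcd s hbs
    have hd1 : HasDerivAt δ 0 s := by
      have k1 : HasFDerivAt (rho g L x) (-(rho g L x (c s))⁻¹ • g (c s) (L (c s) x)) (c s) :=
        h.hasFDerivAt_rho hxM hPM (ne_of_sphere hx hPS)
      have k2 : HasFDerivAt (rho g L Q) (-(rho g L Q (c s))⁻¹ • g (c s) (L (c s) Q)) (c s) :=
        h.hasFDerivAt_rho hQM hPM hPQ.symm
      have k3 := (k1.comp_hasDerivAt s hv).add_const (rho g L x Q)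
      have k4 := k3.sub (k2.comp_hasDerivAt s hv)
      have k5 : HasDerivAt δ _ s := k4
      have hmin : IsLocalMin δ s := by
        filter_upwards [hnear] with z hz
        rw [hδ0]
        exact hδn z hz
      have k6 := hmin.hasDerivAt_eq_zero k5
      rw [k6] at k5
      exact k5
    have hsl := (hasDerivAt_iff_tendsto_slope.1 hd1).mono_left
      (nhdsWithin_mono s (fun z (hz : s < z) => ne_of_gt hz))
    have hev : ∀ᶠ z in 𝓝[>] s, slope (fun s => -F s) s z < r := by
      filter_upwards [hsl.eventually (gt_mem_nhds hr), nhdsWithin_le_nhds hnear,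
        self_mem_nhdsWithin] with z hz1 hz2 hz3
      refine lt_of_le_of_lt ?_ hz1
      have hzs : 0 < z - s := sub_pos.2 hz3
      rw [slope_def_field, slope_def_field, div_le_div_iff_of_pos_right hzs, hδ0]
      have := hlow z hz2
      linarith
    exact hev.frequently

omit [FiniteDimensional ℝ E] in
lemma seg_ne {p q : E} (hp : p ∈ sphere (0 : E) 1) (hq : q ∈ sphere (0 : E) 1) (hpq : q ≠ -p)
    {s : ℝ} (hs : s ∈ Icc (0 : ℝ) 1) : (1 - s) • p + s • q ≠ 0 := by
  intro h0
  have h1 : (1 - s) • p = -(s • q) := eq_neg_of_add_eq_zero_left h0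
  have h2 := congrArg norm h1
  rw [norm_neg, norm_smul, norm_smul, norm_of_sphere hp, norm_of_sphere hq, mul_one, mul_one,
    Real.norm_of_nonneg (sub_nonneg.2 hs.2), Real.norm_of_nonneg hs.1] at h2
  have h3 : s = 1 / 2 := by linarith
  rw [h3] at h1
  have h4 : ((1 : ℝ) - 1 / 2) = 1 / 2 := by norm_num
  rw [h4, ← smul_neg] at h1
  have h5 := smul_right_injective E (show (1 / 2 : ℝ) ≠ 0 by norm_num) h1
  exact hpq (by rw [h5, neg_neg])

/-- the lengths of all the geodesics are preserved -/
lemma KP_eq_rho (h : Simple g e L) (hn : 1 < Module.finrank ℝ E) (hg : IsMetric g')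
    (hφ : IsBdryMap φ)
    (hd : ∀ p ∈ sphere (0 : E) 1, ∀ q ∈ sphere (0 : E) 1, gdist g p q ≤ gdist g' p q)
    (hlen : ∀ p ∈ sphere (0 : E) 1, ∀ q ∈ sphere (0 : E) 1, p ≠ q →
      KP e L φ g' (p, q) = rho g L p q)
    {x : E} (hx : ‖x‖ < 1) {p : E} (hp : p ∈ sphere (0 : E) 1) :
    KP e L φ g' (x, p) = rho g L x p := by
  have key : ∀ p ∈ sphere (0 : E) 1, ∀ q ∈ sphere (0 : E) 1,
      KP e L φ g' (x, p) - rho g L x p ≤ KP e L φ g' (x, q) - rho g L x q := by
    intro p hp q hq
    by_cases hpq : q = -p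
    · obtain ⟨ξ, hξ1, hξ2⟩ := exists_orth hn p
      have hξ : ξ ∈ sphere (0 : E) 1 := by simpa using hξ1
      have hpp : inner ℝ p p = (1 : ℝ) := by
        rw [real_inner_self_eq_norm_sq, norm_of_sphere hp, one_pow]
      have h1 : ξ ≠ -p := by
        rintro rfl
        rw [inner_neg_right, hpp] at hξ2
        norm_num at hξ2
      have h2 : q ≠ -ξ := by
        rintro h0
        rw [hpq] at h0
        rw [← neg_injective h0, hpp] at hξ2
        norm_num at hξ2
      exact (path_le h hg hφ hd hlen hx hp hξ fun s hs => seg_ne hp hξ h1 hs).trans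
        (path_le h hg hφ hd hlen hx hξ hq fun s hs => seg_ne hξ hq h2 hs)
    · exact path_le h hg hφ hd hlen hx hp hq fun s hs => seg_ne hp hq hpq hs
  obtain ⟨q, hq, hpq, hxq⟩ := h.exists_exit hp hx
  have h1 := key p hp q hq
  have h2 := key q hq p hp
  have h3 := KP_add (φ := φ) (g' := g') h hg.cont hφ.smooth hxq
  have h4 := h.rho_add (mem_of_sphere hp) (mem_of_sphere hq) hxq
  rw [hlen p hp q hq hpq] at h3
  linarith

/-- **the equality case** -/
theorem pull_eq (h : Simple g e L) (hn : 1 < Module.finrank ℝ E) (hg : IsMetric g')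
    (hφ : IsBdryMap φ)
    (hd : ∀ p ∈ sphere (0 : E) 1, ∀ q ∈ sphere (0 : E) 1, gdist g p q ≤ gdist g' p q)
    (hlen : ∀ p ∈ sphere (0 : E) 1, ∀ q ∈ sphere (0 : E) 1, p ≠ q →
      KP e L φ g' (p, q) = rho g L p q) :
    ∀ x ∈ closedBall (0 : E) 1, pull φ g' x = g x := by
  -- along the geodesics
  have hgeo : ∀ p ∈ sphere (0 : E) 1, ∀ q ∈ sphere (0 : E) 1, p ≠ q → ∀ γ u : ℝ → E,
      IsGeod g γ u → γ 0 = p → γ 1 = q → ∀ t ∈ Ioo (0 : ℝ) 1,
      pull φ g' (γ t) (u t) (u t) = g (γ t) (u t) (u t) := by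
    intro p hp q hq hpq γ u hγ h0 h1 t ht
    have hpM := mem_of_sphere hp
    have hqM := mem_of_sphere hq
    set k : ℝ → ℝ := fun s => √(pull φ g' (γ s) (u s) (u s)) with hk
    have hkc : ContinuousOn k (Icc 0 1) :=
      cont_speed hg.cont hφ.smooth (Simple.isCurve_geod hγ)
    have hint : ∀ s ∈ Ioo (0 : ℝ) 1, ∫ r in (0 : ℝ)..s, k r = s * rho g L p q := by
      intro s hs
      have hs' := Ioo_subset_Icc_self hs
      have k1 := (KP_split (φ := φ) (g' := g') h hγ h0 h1 hs').2
      have hγs : ‖γ s‖ < 1 := h.interior hγ (by rw [h0, h1]; exact hpq) hs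
      rw [← k1, KP_eq_rho h hn hg hφ hd hlen hγs hp, h.rho_symm (mem_of_norm_lt hγs) hpM,
        h.geod_eq hγ hs', h0]
      have k2 : u 0 = L p q := by
        have := h.L_geod hγ zero_mem01 one_mem01
        rw [h0, h1, sub_zero, one_smul] at this
        exact this.symm
      rw [k2, h.rho_pt hpM hqM hs']
    have hkt : ContinuousAt k t := (hkc t (Ioo_subset_Icc_self ht)).continuousAt
      (Icc_mem_nhds ht.1 ht.2)
    have d1 : HasDerivAt (fun s => ∫ r in (0 : ℝ)..s, k r) (k t) t := by
      refine intervalIntegral.integral_hasDerivAt_right ?_ ?_ hkt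
      · refine ContinuousOn.intervalIntegrable ?_
        rw [uIcc_of_le ht.1.le]; exact hkc.mono (Icc_subset_Icc_right ht.2.le)
      · exact (hkc.mono Ioo_subset_Icc_self).stronglyMeasurableAtFilter isOpen_Ioo t ht
    have d2 : HasDerivAt (fun s => ∫ r in (0 : ℝ)..s, k r) (rho g L p q) t := by
      have k1 : HasDerivAt (fun s : ℝ => s * rho g L p q) (rho g L p q) t := by
        simpa using (hasDerivAt_id t).mul_const (rho g L p q)
      refine k1.congr_of_eventuallyEq ?_
      filter_upwards [isOpen_Ioo.mem_nhds ht] with s hs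
      exact hint s hs
    have h2 : k t = rho g L p q := d1.unique d2
    have hM := hγ.mem t (Ioo_subset_Icc_self ht)
    have h3 : pull φ g' (γ t) (u t) (u t) = rho g L p q ^ 2 := by
      rw [← h2, hk]
      exact (Real.sq_sqrt (hg.nonneg (hφ.maps hM) _)).symm
    have k2 : u 0 = L p q := by
      have := h.L_geod hγ zero_mem01 one_mem01
      rw [h0, h1, sub_zero, one_smul] at this
      exact this.symm
    rw [h3, hγ.energy h.smooth h.symm (Ioo_subset_Icc_self ht), h0, k2, h.rho_sq hpM]
  -- all the directions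
  have hdir : ∀ x : E, ‖x‖ < 1 → ∀ w, pull φ g' x w w = g x w w := by
    intro x hx w
    by_cases hw : w = 0
    · rw [hw]; simp
    have hxM := mem_of_norm_lt hx
    obtain ⟨q, hq, s, hs, hL⟩ := h.exit_dir hx hw
    obtain ⟨p, hp, hqp, γ, u, hγ, h0, h1, t, ht, hxt⟩ := h.exists_exit hq hx
    have ht1 : t ∈ Ioo (0 : ℝ) 1 := by
      refine ⟨lt_of_le_of_ne ht.1 fun h2 => ?_, lt_of_le_of_ne ht.2 fun h2 => ?_⟩
      · rw [← h2, h0] at hxt
        exact ne_of_sphere hx hq hxt.symm
      · rw [h2, h1] at hxt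
        exact ne_of_sphere hx hp hxt.symm
    have h2 := hgeo q hq p hp hqp γ u hγ h0 h1 t ht1
    have h3 := h.L_geod hγ ht zero_mem01
    rw [h0, hxt, zero_sub, hL] at h3
    have h4 : w = (-(t / s)) • u t := by
      have h5 : s⁻¹ • (s • w) = s⁻¹ • (-t • u t) := by rw [h3]
      rw [smul_smul, inv_mul_cancel₀ hs.ne', one_smul, smul_smul] at h5
      rw [h5]
      congr 1
      field_simp
    rw [hxt] at h2
    rw [h4]
    simp only [map_smul, smul_apply, smul_eq_mul]
    rw [h2]
  have hopen : ∀ x ∈ ball (0 : E) 1, pull φ g' x = g x := by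
    intro x hx
    have hx1 : ‖x‖ < 1 := by simpa using hx
    have hxM := mem_of_norm_lt hx1
    ext v w
    have h1 := hdir x hx1 (v + w)
    have h2 := hdir x hx1 v
    have h3 := hdir x hx1 w
    have hs1 : pull φ g' x w v = pull φ g' x v w := by
      rw [pull_apply, pull_apply, hg.symm _ (hφ.maps hxM)]
    simp only [map_add, add_apply] at h1
    rw [hs1, h.symm x hxM w v] at h1
    linarith
  have hcl : EqOn (pull φ g') g (closedBall (0 : E) 1) := by
    have k1 : EqOn (pull φ g') g (ball (0 : E) 1) := hopen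
    refine k1.of_subset_closure (continuous_pull hg.cont hφ.smooth).continuousOn
      h.smooth.continuous.continuousOn ball_subset_closedBall ?_
    rw [closure_ball (0 : E) one_ne_zero]
  exact hcl

end Pool.Agent.W9h56.BE
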