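import Pool.Agent.H85.BE.Ton

/-!
# The integrated comparison for functions on the tangent bundle
-/

open Set Metric Filter Topology MeasureTheory
open scoped ContDiff RealInnerProductSpace ENNReal

noncomputable section

set_option maxSynthPendingDepth 3

namespace Pool.Agent.W9h56.BE

open Pool.Agent.W5h72.BR

variable {E : Type*} [NormedAddCommGroup E] [InnerProductSpace ℝ E] [FiniteDimensional ℝ E]

variable {g g' : E → E →L[ℝ] E →L[ℝ] ℝ} {e L e' L' : E → E → E} {φ : E → E} {G G1 G2 : E × E → ℝ}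

/-- the integral of `G` along the geodesic from `p` to `q` (the directions point to `p`) -/
def KK (g : E → E →L[ℝ] E →L[ℝ] ℝ) (e L : E → E → E) (G : E × E → ℝ) (p q : E) : ℝ≥0∞ :=
  ∫⁻ s in Ioo (0 : ℝ) (rho g L p q), ENNReal.ofReal (G (e p ((s / rho g L p q) • L p q),
    uu g L (e p ((s / rho g L p q) • L p q)) p))

/-- the integrand -/
def FG (g : E → E →L[ℝ] E →L[ℝ] ℝ) (L : E → E → E) (G : E × E → ℝ) (w : E × E) : ℝ≥0∞ :=
  ENNReal.ofReal |(AA g L w).det| * ENNReal.ofReal (G (w.1, uu g L w.1 (proj w.2)))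

lemma continuousAt_G (h : Simple g e L) (hG : Continuous G) {w : E × E} (hw : w ∈ UU) :
    ContinuousAt (fun w : E × E => G (w.1, uu g L w.1 (proj w.2))) w :=
  ContinuousAt.comp (g := G) (f := fun w : E × E => (w.1, uu g L w.1 (proj w.2)))
    hG.continuousAt (continuousAt_fst.prodMk (continuousAt_uu h hw))

lemma continuousAt_FG (h : Simple g e L) (hG : Continuous G) {w : E × E} (hw : w ∈ UU) :
    ContinuousAt (FG g L G) w := by
  have hA : ContinuousAt (fun w => |(AA g L w).det|) w :=
    (ContinuousLinearMap.continuous_det.continuousAt.comp (continuousAt_AA h hw)).abs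
  have h1 : ContinuousAt (fun w : E × E =>
      ENNReal.ofReal (|(AA g L w).det| * G (w.1, uu g L w.1 (proj w.2)))) w :=
    ENNReal.continuous_ofReal.continuousAt.comp (hA.mul (continuousAt_G h hG hw))
  simp only [ENNReal.ofReal_mul (abs_nonneg _)] at h1
  exact h1

variable [MeasurableSpace E] [BorelSpace E]

/-- the integral of `G` over the unit tangent bundle -/
def II (g : E → E →L[ℝ] E →L[ℝ] ℝ) (L : E → E → E) (G : E × E → ℝ) : ℝ≥0∞ :=
  ∫⁻ x in ball (0 : E) 1, ∫⁻ z in S0, FG g L G (x, z)

theorem ton_gen (h : Simple g e L) (hG : Continuous G)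
    (hlen : ∀ p ∈ sphere (0 : E) 1, ∀ q ∈ sphere (0 : E) 1, p ≠ q →
      ENNReal.ofReal (rho g L p q) ≤ KK g e L G p q) :
    ∫⁻ x in ball (0 : E) 1, ∫⁻ z in S0, ENNReal.ofReal |(AA g L (x, z)).det| ≤ II g L G := by
  have hA' : ∀ w ∈ (UU : Set (E × E)),
      ContinuousAt (fun w => ENNReal.ofReal |(AA g L w).det|) w := fun w hw =>
    ENNReal.continuous_ofReal.continuousAt.comp
      (ContinuousLinearMap.continuous_det.continuousAt.comp (continuousAt_AA h hw)).abs
  rw [II, swap hA', swap fun w hw => continuousAt_FG h hG hw]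
  refine setLIntegral_mono' measurableSet_S0 fun z hz => ?_
  have hz0 : z ≠ 0 := fun h0 => hz.2 h0
  refine fix_z h hz0 (F := fun x => ENNReal.ofReal (G (x, uu g L x (proj z)))) ?_ ?_
  · have h1 : ContinuousOn (fun x => ENNReal.ofReal (G (x, uu g L x (proj z))))
        (ball (0 : E) 1) := by
      intro x hx
      have h2 := continuousAt_G h hG (w := (x, z)) ⟨by simpa using hx, hz0⟩
      have h3 : ContinuousAt (fun x => G (x, uu g L x (proj z))) x :=
        ContinuousAt.comp (f := fun x => (x, z))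
          (g := fun w : E × E => G (w.1, uu g L w.1 (proj w.2))) h2 (by fun_prop)
      exact (ENNReal.continuous_ofReal.continuousAt.comp h3).continuousWithinAt
    exact (continuousOn_iff_continuous_restrict.1 h1).measurable
  · intro q hq hpq
    exact hlen _ (proj_mem hz0) q hq hpq

lemma aem_FG (h : Simple g e L) (hG : Continuous G) :
    AEMeasurable (FG g L G) (((volume : Measure E).restrict (ball (0 : E) 1)).prod
      (volume.restrict S0)) := by
  have h1 : ContinuousOn (FG g L G) (ball (0 : E) 1 ×ˢ S0) := fun w hw =>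
    (continuousAt_FG h hG (sub_UU hw)).continuousWithinAt
  have h2 := h1.aemeasurable (μ := (volume : Measure E).prod volume)
    (measurableSet_ball.prod measurableSet_S0)
  rw [← Measure.prod_restrict] at h2
  exact h2

lemma II_add (h : Simple g e L) (hG1 : Continuous G1) (hG2 : Continuous G2)
    (h1 : ∀ w, 0 ≤ G1 w) (h2 : ∀ w, 0 ≤ G2 w) :
    II g L (fun w => G1 w + G2 w) = II g L G1 + II g L G2 := by
  have e1 : ∀ {G : E × E → ℝ}, Continuous G → II g L G = ∫⁻ w, FG g L G w
      ∂(((volume : Measure E).restrict (ball (0 : E) 1)).prod (volume.restrict S0)) := by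
    intro G hG
    rw [II, lintegral_prod _ (aem_FG h hG)]
  have e2 := e1 (G := fun w => G1 w + G2 w) (hG1.add hG2)
  rw [e2, e1 hG1, e1 hG2, ← lintegral_add_left' (aem_FG h hG1)]
  refine lintegral_congr fun w => ?_
  simp only [FG]
  rw [ENNReal.ofReal_add (h1 _) (h2 _), mul_add]

lemma II_mono (hG : ∀ w, G1 w ≤ G2 w) : II g L G1 ≤ II g L G2 := by
  refine lintegral_mono fun x => lintegral_mono fun z => ?_
  simp only [FG]
  exact mul_le_mul_right (ENNReal.ofReal_le_ofReal (hG _)) _

/-- vanishing of the integral -/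
lemma II_zero (h : Simple g e L) (hG : Continuous G) (hG0 : ∀ w, 0 ≤ G w) (hI : II g L G = 0)
    {x u : E} (hx : ‖x‖ < 1) (hu : g x u u = 1) : G (x, u) = 0 := by
  have haem : AEMeasurable (fun x => ∫⁻ z in S0, FG g L G (x, z))
      (volume.restrict (ball (0 : E) 1)) := (aem_FG h hG).lintegral_prod_right'
  have h1 := (lintegral_eq_zero_iff' haem).1 hI
  -- for almost all points
  have key : ∀ y : E, ‖y‖ < 1 → ∫⁻ z in S0, FG g L G (y, z) = 0 → ∀ v, g y v v = 1 →
      G (y, v) = 0 := by
    intro y hy h2 v hv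
    have hyM := mem_of_norm_lt hy
    obtain ⟨A, hA, hA1, hA2⟩ := exists_frame (h.symm y hyM) (h.pos y hyM)
    have h3 := fix_x h hy A hA fun v => ENNReal.ofReal (G (y, v))
    have h4 : ∫⁻ z in S0, ENNReal.ofReal |(AA g L (y, z)).det| *
        ENNReal.ofReal (G (y, uu g L y (proj z))) = 0 := h2
    rw [h4] at h3
    have h5 : ENNReal.ofReal |LinearMap.det ((gop (g y) : E →L[ℝ] E).toLinearMap ∘ₗ
        A.toLinearMap)| ≠ 0 := by
      rw [hA1]
      exact (ENNReal.ofReal_pos.2 (Real.sqrt_pos.2 hA2)).ne'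
    have h6 : ∫⁻ z in S0, ENNReal.ofReal (G (y, A (un z))) = 0 :=
      (mul_eq_zero.1 h3.symm).resolve_left h5
    have hopen : IsOpen (S0 : Set E) := isOpen_ball.sdiff isClosed_singleton
    have hun : ContinuousOn (un : E → E) S0 := by
      intro y hy
      have hy0 : ‖y‖ ≠ 0 := norm_ne_zero_iff.2 fun h0 => hy.2 h0
      exact ((continuous_norm.continuousAt.inv₀ hy0).smul continuousAt_id).continuousWithinAt
    have hAc : Continuous A := A.toLinearMap.continuous_of_finiteDimensional
    have hcont : ContinuousOn (fun z => ENNReal.ofReal (G (y, A (un z)))) S0 := by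
      have k1 : Continuous fun w : E => ENNReal.ofReal (G (y, A w)) :=
        ENNReal.continuous_ofReal.comp (hG.comp (continuous_const.prodMk hAc))
      exact k1.comp_continuousOn hun
    have h7 := (lintegral_eq_zero_iff' (hcont.aemeasurable measurableSet_S0)).1 h6
    have h8 := Measure.eqOn_open_of_ae_eq (g := fun _ => (0 : ℝ≥0∞)) h7 hopen hcont
      continuousOn_const
    have hn : ‖A.symm v‖ = 1 := by
      have k1 := hA (A.symm v) (A.symm v)
      rw [LinearEquiv.apply_symm_apply, hv, real_inner_self_eq_norm_sq] at k1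
      have k2 := norm_nonneg (A.symm v)
      nlinarith
    have hmem : (1 / 2 : ℝ) • A.symm v ∈ (S0 : Set E) := by
      refine ⟨?_, ?_⟩
      · simp only [mem_ball, dist_zero_right, norm_smul, hn]; norm_num
      · simp only [mem_singleton_iff]
        intro h0
        have := congrArg norm h0
        rw [norm_smul, hn, norm_zero] at this
        norm_num at this
    have h9 := h8 hmem
    have h10 : un ((1 / 2 : ℝ) • A.symm v) = A.symm v := by
      rw [un, norm_smul, hn, smul_smul]; norm_num
    simp only [h10, LinearEquiv.apply_symm_apply] at h9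
    exact le_antisymm (ENNReal.ofReal_eq_zero.1 h9) (hG0 _)
  by_contra hne
  have hpos : 0 < G (x, u) := lt_of_le_of_ne (hG0 _) (Ne.symm hne)
  have hxb : x ∈ ball (0 : E) 1 := by simpa using hx
  have hgc : Continuous fun y => g y u u :=
    (h.smooth.continuous.clm_apply continuous_const).clm_apply continuous_const
  have hcont : ContinuousAt (fun y => G (y, (√(g y u u))⁻¹ • u)) x := by
    have k1 : ContinuousAt (fun y => (y, (√(g y u u))⁻¹ • u)) x := by
      refine continuousAt_id.prodMk (ContinuousAt.smul (ContinuousAt.inv₀ ?_ ?_) continuousAt_const)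
      · exact hgc.sqrt.continuousAt
      · rw [hu]; simp
    exact ContinuousAt.comp (g := G) hG.continuousAt k1
  have hev1 : ∀ᶠ y in 𝓝 x, 0 < G (y, (√(g y u u))⁻¹ • u) := by
    refine hcont.eventually (lt_mem_nhds ?_)
    simp only [hu]; simpa using hpos
  have hev2 : ∀ᶠ y in 𝓝 x, 0 < g y u u := by
    refine hgc.continuousAt.eventually (lt_mem_nhds ?_)
    simp only [hu]; exact one_pos
  have hev3 : ∀ᶠ y in 𝓝 x, y ∈ ball (0 : E) 1 := isOpen_ball.mem_nhds hxb
  obtain ⟨U, hU1, hU2, hU3⟩ := _root_.mem_nhds_iff.1 ((hev1.and hev2).and hev3)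
  have hUb : U ⊆ ball (0 : E) 1 := fun y hy => (hU1 hy).2
  have h2 : ∀ᵐ y ∂(volume.restrict U), ∫⁻ z in S0, FG g L G (y, z) = 0 :=
    ae_restrict_of_ae_restrict_of_subset hUb h1
  have h3 : ∀ᵐ y ∂(volume.restrict U), y ∈ U := ae_restrict_mem hU2.measurableSet
  have h4 : (volume : Measure E) U ≠ 0 := (hU2.measure_pos volume ⟨x, hU3⟩).ne'
  have : (ae ((volume : Measure E).restrict U)).NeBot := by
    rw [ae_neBot]
    intro h0
    exact h4 (Measure.restrict_eq_zero.1 h0)
  obtain ⟨y, hy1, hy2⟩ := (h2.and h3).exists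
  obtain ⟨⟨k1, k2⟩, k3⟩ := hU1 hy2
  have k4 := key y (by simpa using k3) hy1 ((√(g y u u))⁻¹ • u) (by
    simp only [map_smul, smul_apply, smul_eq_mul]
    have := Real.sq_sqrt k2.le
    have k5 : √(g y u u) ≠ 0 := (Real.sqrt_pos.2 k2).ne'
    field_simp
    linarith)
  rw [k4] at k1
  exact lt_irrefl _ k1

end Pool.Agent.W9h56.BE
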