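import Pool.Agent.H85.BR.Smooth
import Pool.Agent.H85.BE.Line

/-!
# The homogeneous distance function `D(x, z) = |z| d(x, z / |z|)` and its mixed Hessian
-/

open Set Metric Filter Topology MeasureTheory
open scoped ContDiff RealInnerProductSpace ENNReal

noncomputable section

set_option maxSynthPendingDepth 3

namespace Pool.Agent.W9h56.BE

open Pool.Agent.W5h72.BR

variable {E : Type*} [NormedAddCommGroup E] [InnerProductSpace ℝ E] [FiniteDimensional ℝ E]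

/-- the homogeneous distance -/
def DD (g : E → E →L[ℝ] E →L[ℝ] ℝ) (L : E → E → E) (w : E × E) : ℝ := ‖w.2‖ * RR g L w

/-- restriction of a functional to the first, second factor -/
def R1 : ((E × E) →L[ℝ] ℝ) →L[ℝ] (E →L[ℝ] ℝ) :=
  (ContinuousLinearMap.compL ℝ E (E × E) ℝ).flip (ContinuousLinearMap.inl ℝ E E)

def R2 : ((E × E) →L[ℝ] ℝ) →L[ℝ] (E →L[ℝ] ℝ) :=
  (ContinuousLinearMap.compL ℝ E (E × E) ℝ).flip (ContinuousLinearMap.inr ℝ E E)

omit [FiniteDimensional ℝ E] in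
lemma R1_apply (f : (E × E) →L[ℝ] ℝ) (v : E) : R1 f v = f (v, 0) := rfl
omit [FiniteDimensional ℝ E] in
lemma R2_apply (f : (E × E) →L[ℝ] ℝ) (v : E) : R2 f v = f (0, v) := rfl

/-- the gradient of `D` in the second variable -/
def Th (g : E → E →L[ℝ] E →L[ℝ] ℝ) (L : E → E → E) (w : E × E) : E :=
  J (R2 (fderiv ℝ (DD g L) w))

/-- minus the gradient of `D` in the first variable -/
def Xi (g : E → E →L[ℝ] E →L[ℝ] ℝ) (L : E → E → E) (w : E × E) : E :=
  - J (R1 (fderiv ℝ (DD g L) w))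

/-- the mixed Hessian -/
def AA (g : E → E →L[ℝ] E →L[ℝ] ℝ) (L : E → E → E) (w : E × E) : E →L[ℝ] E :=
  J ∘L (R2 ∘L ((fderiv ℝ (fderiv ℝ (DD g L)) w) ∘L (ContinuousLinearMap.inl ℝ E E)))

def BB (g : E → E →L[ℝ] E →L[ℝ] ℝ) (L : E → E → E) (w : E × E) : E →L[ℝ] E :=
  -(J ∘L (R1 ∘L ((fderiv ℝ (fderiv ℝ (DD g L)) w) ∘L (ContinuousLinearMap.inr ℝ E E))))

lemma AA_apply (g : E → E →L[ℝ] E →L[ℝ] ℝ) (L : E → E → E) (w : E × E) (δ ζ : E) :
    inner ℝ (AA g L w δ) ζ = fderiv ℝ (fderiv ℝ (DD g L)) w (δ, 0) (0, ζ) := by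
  rw [AA, ContinuousLinearMap.comp_apply, inner_J]
  rfl

lemma BB_apply (g : E → E →L[ℝ] E →L[ℝ] ℝ) (L : E → E → E) (w : E × E) (δ ζ : E) :
    inner ℝ (BB g L w ζ) δ = - fderiv ℝ (fderiv ℝ (DD g L)) w (0, ζ) (δ, 0) := by
  rw [BB, neg_apply, inner_neg_left, ContinuousLinearMap.comp_apply, inner_J]
  rfl

/-- the domain -/
def UU : Set (E × E) := {w | ‖w.1‖ < 1 ∧ w.2 ≠ 0}

omit [InnerProductSpace ℝ E] [FiniteDimensional ℝ E] in
lemma isOpen_UU : IsOpen (UU : Set (E × E)) :=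
  (isOpen_lt continuous_fst.norm continuous_const).inter
    (isOpen_ne_fun continuous_snd continuous_const)

variable {g : E → E →L[ℝ] E →L[ℝ] ℝ} {e L : E → E → E}

omit [FiniteDimensional ℝ E] in
lemma contDiffAt_DD (h : Simple g e L) {w : E × E} (hw : w ∈ UU) :
    ContDiffAt ℝ ∞ (DD g L) w := by
  have h1 : ContDiffAt ℝ ∞ (RR g L) (w.1, w.2) :=
    h.contDiffAt_rho_proj (mem_of_norm_lt hw.1) hw.2 (ne_of_sphere hw.1 (proj_mem hw.2))
  have h2 : ContDiffAt ℝ ∞ (fun w : E × E => ‖w.2‖) w :=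
    (contDiffAt_norm ℝ hw.2).comp w contDiffAt_snd
  exact h2.mul h1

lemma abs_det_BB (h : Simple g e L) {w : E × E} (hw : w ∈ UU) :
    |(BB g L w).det| = |(AA g L w).det| := by
  have h1 : ((BB g L w : E →L[ℝ] E) : E →ₗ[ℝ] E) =
      -(LinearMap.adjoint ((AA g L w : E →L[ℝ] E) : E →ₗ[ℝ] E)) := by
    ext ζ
    refine ext_inner_right ℝ fun δ => ?_
    rw [LinearMap.neg_apply, inner_neg_left, LinearMap.adjoint_inner_left]
    have h2 := BB_apply g L w δ ζ
    have h3 := AA_apply g L w δ ζ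
    have h4 := symm_snd' (contDiffAt_DD h hw) (0, ζ) (δ, 0)
    rw [real_inner_comm] at h3
    simp only [ContinuousLinearMap.coe_coe]
    rw [h2, h3, h4]
  have h5 : LinearMap.det (LinearMap.adjoint ((AA g L w : E →L[ℝ] E) : E →ₗ[ℝ] E)) =
      LinearMap.det ((AA g L w : E →L[ℝ] E) : E →ₗ[ℝ] E) := by
    have b := stdOrthonormalBasis ℝ E
    rw [← LinearMap.det_toMatrix b.toBasis, ← LinearMap.det_toMatrix b.toBasis,
      LinearMap.toMatrix_adjoint, Matrix.det_conjTranspose]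
    simp
  rw [ContinuousLinearMap.det, ContinuousLinearMap.det, h1]
  have h6 : LinearMap.det (-(LinearMap.adjoint ((AA g L w : E →L[ℝ] E) : E →ₗ[ℝ] E))) =
      (-1) ^ (Module.finrank ℝ E) * LinearMap.det (LinearMap.adjoint
        ((AA g L w : E →L[ℝ] E) : E →ₗ[ℝ] E)) := by
    rw [← neg_one_smul ℝ, LinearMap.det_smul]
  rw [h6, h5, abs_mul, abs_pow, abs_neg, abs_one, one_pow, one_mul]

lemma continuousAt_AA (h : Simple g e L) {w : E × E} (hw : w ∈ UU) :
    ContinuousAt (AA g L) w := by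
  have h1 : ContDiffAt ℝ ∞ (fderiv ℝ (DD g L)) w :=
    (contDiffAt_DD h hw).fderiv_right (m := ∞) (by simp)
  have h2 : ContinuousAt (fderiv ℝ (fderiv ℝ (DD g L))) w :=
    (h1.fderiv_right (m := ∞) (by simp)).continuousAt
  unfold AA
  exact continuousAt_const.clm_comp (continuousAt_const.clm_comp (h2.clm_comp continuousAt_const))

lemma hasFDerivAt_Th (h : Simple g e L) {x z : E} (hx : ‖x‖ < 1) (hz : z ≠ 0) :
    HasFDerivAt (fun x => Th g L (x, z)) (AA g L (x, z)) x := by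
  have h1 : HasFDerivAt (fderiv ℝ (DD g L)) (fderiv ℝ (fderiv ℝ (DD g L)) (x, z)) (x, z) :=
    (((contDiffAt_DD h (show (x, z) ∈ UU from ⟨hx, hz⟩)).fderiv_right (m := ∞)
      (by simp)).differentiableAt (by simp)).hasFDerivAt
  have h2 : HasFDerivAt (fun x => fderiv ℝ (DD g L) (x, z))
      ((fderiv ℝ (fderiv ℝ (DD g L)) (x, z)).comp (ContinuousLinearMap.inl ℝ E E)) x :=
    HasFDerivAt.comp x (f := fun x : E => (x, z)) h1 (hasFDerivAt_prodMk_left (𝕜 := ℝ) x z)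
  have h3 : HasFDerivAt (fun x => R2 (fderiv ℝ (DD g L) (x, z)))
      (R2 ∘L ((fderiv ℝ (fderiv ℝ (DD g L)) (x, z)).comp (ContinuousLinearMap.inl ℝ E E))) x :=
    HasFDerivAt.comp x (R2 (E := E)).hasFDerivAt h2
  exact HasFDerivAt.comp x (J (E := E)).hasFDerivAt h3

lemma hasFDerivAt_Xi (h : Simple g e L) {x z : E} (hx : ‖x‖ < 1) (hz : z ≠ 0) :
    HasFDerivAt (fun z => Xi g L (x, z)) (BB g L (x, z)) z := by
  have h1 : HasFDerivAt (fderiv ℝ (DD g L)) (fderiv ℝ (fderiv ℝ (DD g L)) (x, z)) (x, z) :=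
    (((contDiffAt_DD h (show (x, z) ∈ UU from ⟨hx, hz⟩)).fderiv_right (m := ∞)
      (by simp)).differentiableAt (by simp)).hasFDerivAt
  have h2 : HasFDerivAt (fun z => fderiv ℝ (DD g L) (x, z))
      ((fderiv ℝ (fderiv ℝ (DD g L)) (x, z)).comp (ContinuousLinearMap.inr ℝ E E)) z :=
    HasFDerivAt.comp z (f := fun z : E => (x, z)) h1 (hasFDerivAt_prodMk_right (𝕜 := ℝ) x z)
  have h3 : HasFDerivAt (fun z => R1 (fderiv ℝ (DD g L) (x, z)))
      (R1 ∘L ((fderiv ℝ (fderiv ℝ (DD g L)) (x, z)).comp (ContinuousLinearMap.inr ℝ E E))) z :=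
    HasFDerivAt.comp z (R1 (E := E)).hasFDerivAt h2
  exact (HasFDerivAt.comp z (J (E := E)).hasFDerivAt h3).neg

/-- the unit vector at `x` in the direction of `p` -/
def uu (g : E → E →L[ℝ] E →L[ℝ] ℝ) (L : E → E → E) (x p : E) : E := (rho g L x p)⁻¹ • L x p

/-- formula for `Th` -/
lemma inner_Th (h : Simple g e L) {x z : E} (hx : ‖x‖ < 1) (hz : z ≠ 0) (ζ : E) :
    inner ℝ (Th g L (x, z)) ζ = rho g L x (proj z) * inner ℝ (proj z) ζ -
      g (proj z) (uu g L (proj z) x) (ζ - inner ℝ (proj z) ζ • proj z) := by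
  have hn : ‖z‖ ≠ 0 := norm_ne_zero_iff.2 hz
  have hw : (x, z) ∈ UU := ⟨hx, hz⟩
  rw [Th, inner_J, R2_apply]
  have hxz := ne_of_sphere hx (proj_mem hz)
  have h1 : HasFDerivAt (fun z => DD g L (x, z))
      ((fderiv ℝ (DD g L) (x, z)).comp (ContinuousLinearMap.inr ℝ E E)) z :=
    HasFDerivAt.comp z (f := fun z => (x, z))
      ((contDiffAt_DD h hw).differentiableAt (by simp)).hasFDerivAt (hasFDerivAt_prodMk_right x z)
  have h2 := (hasFDerivAt_norm' hz).mul (h.hasFDerivAt_rho_proj (mem_of_norm_lt hx) hz hxz)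
  have h3 := congrArg (fun f : E →L[ℝ] ℝ => f ζ) (h1.unique h2)
  simp only [ContinuousLinearMap.comp_apply, ContinuousLinearMap.inr_apply] at h3
  rw [h3]
  simp only [add_apply, smul_apply, neg_apply, ContinuousLinearMap.comp_apply, smul_eq_mul,
    innerSL_apply_apply, Simple.dir, uu, Dproj, sub_apply, ContinuousLinearMap.id_apply,
    ContinuousLinearMap.smulRight_apply, map_smul]
  have h4 : inner ℝ (proj z) ζ = ‖z‖⁻¹ * inner ℝ z ζ := by
    rw [proj, inner_smul_left]; simp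
  rw [h4]
  field_simp
  ring

/-- formula for `Xi` -/
lemma inner_Xi (h : Simple g e L) {x z : E} (hx : ‖x‖ < 1) (hz : z ≠ 0) (δ : E) :
    inner ℝ (Xi g L (x, z)) δ = ‖z‖ * g x (uu g L x (proj z)) δ := by
  have hw : (x, z) ∈ UU := ⟨hx, hz⟩
  rw [Xi, inner_neg_left, inner_J, R1_apply]
  have hpz := proj_mem hz
  have hxz := ne_of_sphere hx hpz
  have h1 : HasFDerivAt (fun x => DD g L (x, z))
      ((fderiv ℝ (DD g L) (x, z)).comp (ContinuousLinearMap.inl ℝ E E)) x :=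
    HasFDerivAt.comp x (f := fun x => (x, z))
      ((contDiffAt_DD h hw).differentiableAt (by simp)).hasFDerivAt (hasFDerivAt_prodMk_left x z)
  have h2 := (h.hasFDerivAt_rho (mem_of_sphere hpz) (mem_of_norm_lt hx) hxz.symm).const_mul ‖z‖
  have h4 : (fun x => DD g L (x, z)) =ᶠ[𝓝 x] fun x => ‖z‖ * rho g L (proj z) x := by
    filter_upwards [isOpen_ball.mem_nhds (show x ∈ ball (0 : E) 1 by simpa using hx)] with y' hy'
    simp only [DD, RR]
    rw [h.rho_symm (ball_subset_closedBall hy') (mem_of_sphere hpz)]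
  have h3 := congrArg (fun f : E →L[ℝ] ℝ => f δ) (h1.unique (h2.congr_of_eventuallyEq h4))
  simp only [ContinuousLinearMap.comp_apply, ContinuousLinearMap.inl_apply] at h3
  rw [h3, h.rho_symm (mem_of_sphere hpz) (mem_of_norm_lt hx)]
  simp only [smul_apply, smul_eq_mul, uu, map_smul]
  ring

end Pool.Agent.W9h56.BE
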