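import Pool.Agent.H85.BE.Mean

/-!
# The variance of the speed
-/

open Set Metric Filter Topology MeasureTheory
open scoped ContDiff RealInnerProductSpace ENNReal

noncomputable section

namespace Pool.Agent.W9h56.BE

variable {E : Type*} [NormedAddCommGroup E] [InnerProductSpace ℝ E] [FiniteDimensional ℝ E]
  [MeasurableSpace E] [BorelSpace E]

/-- the volume of the unit ball -/
def om (E : Type*) [NormedAddCommGroup E] [InnerProductSpace ℝ E] [FiniteDimensional ℝ E]
    [MeasurableSpace E] [BorelSpace E] : ℝ := volume.real (ball (0 : E) 1)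

lemma om_pos : 0 < om E :=
  ENNReal.toReal_pos (measure_ball_pos volume (0 : E) one_pos).ne' measure_ball_lt_top.ne

/-- the mean speed -/
def mn (D : E →L[ℝ] E →L[ℝ] ℝ) : ℝ := ∫ y in ball (0 : E) 1, √(D (un y) (un y))

omit [FiniteDimensional ℝ E] in
lemma measurable_D (D : E →L[ℝ] E →L[ℝ] ℝ) : Measurable fun y : E => D (un y) (un y) := by
  have h1 : Continuous fun v : E => D v v := by fun_prop
  exact h1.measurable.comp measurable_un

omit [FiniteDimensional ℝ E] [MeasurableSpace E] [BorelSpace E] in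
lemma bound_D (D : E →L[ℝ] E →L[ℝ] ℝ) (y : E) : D (un y) (un y) ≤ ‖D‖ := by
  have h1 := D.le_opNorm₂ (un y) (un y)
  have h2 := norm_un_le (E := E) y
  have h3 : ‖D‖ * ‖(un y : E)‖ * ‖(un y : E)‖ ≤ ‖D‖ * 1 * 1 := by
    have h4 : ‖(un y : E)‖ ≤ 1 := h2
    gcongr
  calc D (un y) (un y) ≤ ‖D (un y) (un y)‖ := le_abs_self _
    _ ≤ ‖D‖ := by linarith

lemma int_D (D : E →L[ℝ] E →L[ℝ] ℝ) (hD : ∀ v, 0 ≤ D v v) :
    IntegrableOn (fun y : E => D (un y) (un y)) (ball (0 : E) 1) :=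
  integrableOn_bdd (measurable_D D) ‖D‖ fun y => by rw [abs_of_nonneg (hD _)]; exact bound_D D y

lemma int_sqrt (D : E →L[ℝ] E →L[ℝ] ℝ) :
    IntegrableOn (fun y : E => √(D (un y) (un y))) (ball (0 : E) 1) :=
  integrableOn_bdd (measurable_D D).sqrt √‖D‖ fun y => by
    rw [abs_of_nonneg (Real.sqrt_nonneg _)]; exact Real.sqrt_le_sqrt (bound_D D y)

lemma var_id {n : ℕ} (hn : 0 < n) (b : OrthonormalBasis (Fin n) ℝ E) (D : E →L[ℝ] E →L[ℝ] ℝ)
    (hD : ∀ v, 0 ≤ D v v) (c : ℝ) :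
    ∫ y in ball (0 : E) 1, (√(D (un y) (un y)) - c) ^ 2 =
      om E * ((∑ i, D (b i) (b i)) / n) - 2 * c * mn D + c ^ 2 * om E := by
  have h1 : ∀ y : E, (√(D (un y) (un y)) - c) ^ 2 =
      D (un y) (un y) - 2 * c * √(D (un y) (un y)) + c ^ 2 := by
    intro y
    have := Real.sq_sqrt (hD (un y))
    linear_combination this
  simp only [h1]
  have h2 : IntegrableOn (fun y : E => D (un y) (un y) - 2 * c * √(D (un y) (un y)))
      (ball (0 : E) 1) := (int_D D hD).sub ((int_sqrt D).const_mul _)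
  have h3 : IntegrableOn (fun _ : E => c ^ 2) (ball (0 : E) 1) :=
    integrableOn_const measure_ball_lt_top.ne
  rw [integral_add h2 h3, integral_sub (int_D D hD) ((int_sqrt D).const_mul _),
    integral_const_mul, avg hn b D, setIntegral_const, smul_eq_mul, mn, om]
  ring

lemma mn_nonneg (D : E →L[ℝ] E →L[ℝ] ℝ) : 0 ≤ mn D :=
  integral_nonneg fun _ => Real.sqrt_nonneg _

lemma mn_le {n : ℕ} (hn : 0 < n) (b : OrthonormalBasis (Fin n) ℝ E) (D : E →L[ℝ] E →L[ℝ] ℝ)
    (hD : ∀ v, 0 ≤ D v v) : mn D ≤ om E * √((∑ i, D (b i) (b i)) / n) := by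
  have hom := om_pos (E := E)
  have h1 := var_id hn b D hD (mn D / om E)
  have h2 : 0 ≤ ∫ y in ball (0 : E) 1, (√(D (un y) (un y)) - mn D / om E) ^ 2 :=
    integral_nonneg fun _ => sq_nonneg _
  rw [h1] at h2
  set S := (∑ i, D (b i) (b i)) / n with hS
  have hS0 : 0 ≤ S := div_nonneg (Finset.sum_nonneg fun i _ => hD _) (Nat.cast_nonneg _)
  have h3 : mn D ^ 2 ≤ (om E) ^ 2 * S := by
    have h4 : 2 * (mn D / om E) * mn D - (mn D / om E) ^ 2 * om E = mn D ^ 2 / om E := by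
      field_simp; ring
    have h5 : mn D ^ 2 / om E ≤ om E * S := by linarith
    rw [div_le_iff₀ hom] at h5
    linarith
  calc mn D = √(mn D ^ 2) := (Real.sqrt_sq (mn_nonneg D)).symm
    _ ≤ √((om E) ^ 2 * S) := Real.sqrt_le_sqrt h3
    _ = om E * √S := by rw [Real.sqrt_mul (sq_nonneg _), Real.sqrt_sq hom.le]

lemma mn_eq {n : ℕ} (hn : 0 < n) (b : OrthonormalBasis (Fin n) ℝ E) (D : E →L[ℝ] E →L[ℝ] ℝ)
    (hD : ∀ v, 0 ≤ D v v) (h : mn D = om E * √((∑ i, D (b i) (b i)) / n)) (v : E) :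
    D v v = ((∑ i, D (b i) (b i)) / n) * ‖v‖ ^ 2 := by
  set S := (∑ i, D (b i) (b i)) / n with hS
  have hS0 : 0 ≤ S := div_nonneg (Finset.sum_nonneg fun i _ => hD _) (Nat.cast_nonneg _)
  have h1 := var_id hn b D hD √S
  rw [← hS, h] at h1
  have h2 : ∫ y in ball (0 : E) 1, (√(D (un y) (un y)) - √S) ^ 2 = 0 := by
    rw [h1]
    have := Real.mul_self_sqrt hS0
    linear_combination (-(om E)) * this
  have hint : IntegrableOn (fun y : E => (√(D (un y) (un y)) - √S) ^ 2) (ball (0 : E) 1) := by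
    have h1 : ∀ y : E, (√(D (un y) (un y)) - √S) ^ 2 =
        D (un y) (un y) - 2 * √S * √(D (un y) (un y)) + √S ^ 2 := by
      intro y
      have := Real.sq_sqrt (hD (un y))
      linear_combination this
    simp only [h1]
    exact ((int_D D hD).sub ((int_sqrt D).const_mul _)).add
      (integrableOn_const measure_ball_lt_top.ne)
  have h3 := (integral_eq_zero_iff_of_nonneg (fun _ => sq_nonneg _) hint).1 h2
  have hcont : ContinuousOn (fun y : E => (√(D (un y) (un y)) - √S) ^ 2) (ball (0 : E) 1 \ {0}) := by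
    have hun : ContinuousOn (un : E → E) (ball (0 : E) 1 \ {0}) := by
      intro y hy
      have hy0 : ‖y‖ ≠ 0 := norm_ne_zero_iff.2 fun h0 => hy.2 h0
      exact ((continuous_norm.continuousAt.inv₀ hy0).smul continuousAt_id).continuousWithinAt
    have h1 : Continuous fun v : E => (√(D v v) - √S) ^ 2 := by fun_prop
    exact h1.comp_continuousOn hun
  have hopen : IsOpen (ball (0 : E) 1 \ {0}) := isOpen_ball.sdiff isClosed_singleton
  have h4 : (fun y : E => (√(D (un y) (un y)) - √S) ^ 2)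
      =ᵐ[volume.restrict (ball (0 : E) 1 \ {0})] fun _ => (0 : ℝ) :=
    ae_restrict_of_ae_restrict_of_subset sdiff_subset h3
  have h5 := Measure.eqOn_open_of_ae_eq h4 hopen hcont continuousOn_const
  by_cases hv : v = 0
  · rw [hv]; simp
  have hvn : 0 < ‖v‖ := norm_pos_iff.2 hv
  set y : E := (2 * ‖v‖)⁻¹ • v with hy
  have hyn : ‖y‖ = 1 / 2 := by
    rw [hy, norm_smul, norm_inv, norm_mul, norm_norm, Real.norm_eq_abs, abs_of_pos two_pos]
    field_simp
  have hymem : y ∈ ball (0 : E) 1 \ {0} := by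
    refine ⟨by simp only [mem_ball, dist_zero_right, hyn]; norm_num, ?_⟩
    simp only [mem_singleton_iff]
    intro h0
    rw [h0, norm_zero] at hyn
    norm_num at hyn
  have huny : un y = ‖v‖⁻¹ • v := by
    rw [un, hyn, hy, smul_smul]
    congr 1
    field_simp
  have h6 := h5 hymem
  simp only [huny, map_smul, smul_apply, smul_eq_mul] at h6
  have h7 : √(‖v‖⁻¹ * (‖v‖⁻¹ * D v v)) = √S := by
    have := pow_eq_zero_iff (two_ne_zero) |>.1 h6
    linarith
  have h8 : ‖v‖⁻¹ * (‖v‖⁻¹ * D v v) = S :=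
    (Real.sqrt_inj (mul_nonneg (inv_nonneg.2 hvn.le)
      (mul_nonneg (inv_nonneg.2 hvn.le) (hD v))) hS0).1 h7
  rw [← h8]
  field_simp

end Pool.Agent.W9h56.BE
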