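import Pool.Agent.H85.BE.Lines
import Pool.Agent.H85.BE.Base

/-!
# Lengths of the images of geodesics
-/

open Set Metric Filter Topology MeasureTheory
open scoped ContDiff RealInnerProductSpace ENNReal

noncomputable section

set_option maxSynthPendingDepth 3

namespace Pool.Agent.W9h56.BE

open Pool.Agent.W5h72.BR

variable {E : Type*} [NormedAddCommGroup E] [InnerProductSpace ℝ E]

lemma pull_apply (φ : E → E) (g' : E → E →L[ℝ] E →L[ℝ] ℝ) (x v w : E) :
    pull φ g' x v w = g' (φ x) (fderiv ℝ φ x v) (fderiv ℝ φ x w) := rfl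

variable {g g' : E → E →L[ℝ] E →L[ℝ] ℝ} {e L : E → E → E} {φ : E → E}

lemma IsMetric.nonneg (hg : IsMetric g) {x : E} (hx : x ∈ closedBall (0 : E) 1) (v : E) :
    0 ≤ g x v v := by
  by_cases h : v = 0
  · rw [h]; simp
  · exact (hg.pos x hx v h).le

lemma continuous_pull (hg : Continuous g') (hφ : ContDiff ℝ 1 φ) : Continuous (pull φ g') := by
  have h1 : Continuous (fderiv ℝ φ) := hφ.continuous_fderiv (by norm_num)
  have h2 : Continuous fun x => g' (φ x) := hg.comp hφ.continuous
  have hfl : Continuous fun T : E →L[ℝ] E →L[ℝ] ℝ => T.flip :=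
    (ContinuousLinearMap.flipₗᵢ ℝ E E ℝ).continuous
  exact hfl.comp ((hfl.comp (h2.clm_comp h1)).clm_comp h1)

lemma gdist_le_length {x y : E} {c c' : ℝ → E} (hc : IsCurve c c' x y) :
    gdist g' x y ≤ length g' c c' := by
  refine csInf_le ⟨0, ?_⟩ ⟨c, c', hc, rfl⟩
  rintro l ⟨c, c', hc, rfl⟩
  exact intervalIntegral.integral_nonneg zero_le_one fun t _ => Real.sqrt_nonneg _

lemma len_le (h : Simple g e L) (hg : IsMetric g') (hφ : IsBdryMap φ)
    (hd : ∀ p ∈ sphere (0 : E) 1, ∀ q ∈ sphere (0 : E) 1, gdist g p q ≤ gdist g' p q)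
    {p q : E} (hp : p ∈ sphere (0 : E) 1) (hq : q ∈ sphere (0 : E) 1) (hpq : p ≠ q) :
    ENNReal.ofReal (rho g L p q) ≤ ∫⁻ s in Ioo (0 : ℝ) (rho g L p q),
      ENNReal.ofReal √(pull φ g' (e p ((s / rho g L p q) • L p q))
        (uu g L (e p ((s / rho g L p q) • L p q)) p)
        (uu g L (e p ((s / rho g L p q) • L p q)) p)) := by
  have hpM := mem_of_sphere hp
  have hqM := mem_of_sphere hq
  have hr := h.rho_pos hpM hqM hpq
  set r := rho g L p q with hrd
  obtain ⟨γ, u, hγ, h0, hu, h1⟩ := h.exists_geod hpM hqM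
  have hγc : ContinuousOn γ (Icc 0 1) := fun t ht => (hγ.vel t ht).continuousWithinAt
  have huc : ContinuousOn u (Icc 0 1) := fun t ht => by
    obtain ⟨a, ha, -⟩ := hγ.acc t ht
    exact ha.continuousWithinAt
  have hfc : Continuous (fderiv ℝ φ) := hφ.smooth.continuous_fderiv (by norm_num)
  have hc : IsCurve (fun t => φ (γ t)) (fun t => fderiv ℝ φ (γ t) (u t)) p q := by
    refine ⟨fun t ht => hφ.maps (hγ.mem t ht), fun t ht => ?_, ?_, ?_, ?_⟩
    · exact HasFDerivAt.comp_hasDerivWithinAt (f := γ) (l := φ) t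
        ((hφ.smooth.differentiable (by norm_num)) (γ t)).hasFDerivAt (hγ.vel t ht)
    · exact (hfc.comp_continuousOn hγc).clm_apply huc
    · simp only [h0]; exact hφ.bdry p hp
    · simp only [h1]; exact hφ.bdry q hq
  set k : ℝ → ℝ := fun t => √(pull φ g' (γ t) (u t) (u t)) with hk
  have hkc : ContinuousOn k (Icc 0 1) := by
    apply ContinuousOn.sqrt
    have h2 : ContinuousOn (fun t => g' (φ (γ t))) (Icc 0 1) :=
      (hg.cont.comp hφ.smooth.continuous).comp_continuousOn hγc
    exact (h2.clm_apply ((hfc.comp_continuousOn hγc).clm_apply huc)).clm_apply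
      ((hfc.comp_continuousOn hγc).clm_apply huc)
  have hlen : r ≤ ∫ t in (0 : ℝ)..1, k t := by
    have h2 := gdist_le_length (g' := g') hc
    have h3 := hd p hp q hq
    rw [h.gdist_eq hpM hqM] at h3
    exact h3.trans h2
  have hsub : ∫ s in (0 : ℝ)..r, r⁻¹ * k (s / r) = ∫ t in (0 : ℝ)..1, k t := by
    rw [intervalIntegral.integral_const_mul, intervalIntegral.integral_comp_div _ hr.ne', zero_div,
      div_self hr.ne', smul_eq_mul, inv_mul_cancel_left₀ hr.ne']
  have hKc : ContinuousOn (fun s => r⁻¹ * k (s / r)) (Icc 0 r) := by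
    refine continuousOn_const.mul (hkc.comp (by fun_prop) fun s hs => ?_)
    exact ⟨div_nonneg hs.1 hr.le, (div_le_one hr).2 hs.2⟩
  have hKn : ∀ s, 0 ≤ r⁻¹ * k (s / r) := fun s =>
    mul_nonneg (inv_nonneg.2 hr.le) (Real.sqrt_nonneg _)
  calc ENNReal.ofReal r ≤ ENNReal.ofReal (∫ s in (0 : ℝ)..r, r⁻¹ * k (s / r)) := by
        rw [hsub]; exact ENNReal.ofReal_le_ofReal hlen
    _ = ∫⁻ s in Ioo (0 : ℝ) r, ENNReal.ofReal (r⁻¹ * k (s / r)) := by
        rw [intervalIntegral.integral_of_le hr.le, integral_Ioc_eq_integral_Ioo,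
          ofReal_integral_eq_lintegral_ofReal
            ((hKc.integrableOn_compact isCompact_Icc).mono_set Ioo_subset_Icc_self)
            (Eventually.of_forall hKn)]
    _ = _ := by
        refine setLIntegral_congr_fun measurableSet_Ioo fun s hs => ?_
        have ht : s / r ∈ Ioo (0 : ℝ) 1 := ⟨div_pos hs.1 hr, (div_lt_one hr).2 hs.2⟩
        have ht' := Ioo_subset_Icc_self ht
        set t := s / r with htd
        have hγt : e p (t • L p q) = γ t := by
          have := h.geod_eq hγ ht'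
          rw [h0, hu] at this
          exact this.symm
        have h2 : L (γ t) p = -(t • u t) := by
          have := h.L_geod hγ ht' zero_mem01
          rw [h0, zero_sub, neg_smul] at this
          exact this
        have h3 : rho g L (γ t) p = t * r := by
          rw [h.rho_symm (hγ.mem t ht') hpM, ← hγt, h.rho_pt hpM hqM ht']
        have h4 : uu g L (γ t) p = (-r⁻¹) • u t := by
          rw [uu, h2, h3, smul_neg, ← neg_smul, smul_smul]
          congr 1
          have := ht.1.ne'
          field_simp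
        congr 1
        rw [hγt, h4]
        simp only [map_smul, smul_apply, smul_eq_mul, hk]
        rw [show -r⁻¹ * (-r⁻¹ * pull φ g' (γ t) (u t) (u t)) =
          r⁻¹ ^ 2 * pull φ g' (γ t) (u t) (u t) by ring, Real.sqrt_mul (sq_nonneg _),
          Real.sqrt_sq (inv_nonneg.2 hr.le)]

end Pool.Agent.W9h56.BE
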