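import Pool.Agent.H85.BR.Criteria
import Pool.Agent.H85.BE.Len

/-!
# Maps which do not increase the lengths of the geodesics
-/

open Set Metric Filter Topology MeasureTheory
open scoped ContDiff RealInnerProductSpace ENNReal

noncomputable section

set_option maxSynthPendingDepth 3

namespace Pool.Agent.W9h56.BE

open Pool.Agent.W5h72.BR

variable {E : Type*} [NormedAddCommGroup E] [InnerProductSpace ℝ E]

variable {g g' : E → E →L[ℝ] E →L[ℝ] ℝ} {e L e' L' : E → E → E} {φ : E → E}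

/-- the speed of `φ ∘ γ` -/
lemma cont_speed (hg : Continuous g') (hφ : ContDiff ℝ 1 φ) {γ u : ℝ → E} {a b : E}
    (hc : IsCurve γ u a b) :
    ContinuousOn (fun t => √(pull φ g' (γ t) (u t) (u t))) (Icc 0 1) := by
  have hγc : ContinuousOn γ (Icc 0 1) := fun t ht => (hc.der t ht).continuousWithinAt
  exact (((continuous_pull hg hφ).comp_continuousOn hγc).clm_apply hc.cont).clm_apply hc.cont |>.sqrt

/-- the two pieces of the image of a curve -/
lemma split_le (h' : Simple g' e' L') (hφ : IsBdryMap φ) {γ u : ℝ → E} {a b : E}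
    (hc : IsCurve γ u a b) {t : ℝ} (ht : t ∈ Icc (0 : ℝ) 1) :
    rho g' L' (φ a) (φ (γ t)) + rho g' L' (φ (γ t)) (φ b) ≤
      ∫ s in (0 : ℝ)..1, √(pull φ g' (γ s) (u s) (u s)) := by
  have hfc : Continuous (fderiv ℝ φ) := hφ.smooth.continuous_fderiv (by norm_num)
  have hγc : ContinuousOn γ (Icc 0 1) := fun t ht => (hc.der t ht).continuousWithinAt
  set k : ℝ → ℝ := fun s => √(pull φ g' (γ s) (u s) (u s)) with hk
  have hkc : ContinuousOn k (Icc 0 1) := cont_speed h'.smooth.continuous hφ.smooth hc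
  -- affine pieces
  have key : ∀ α β : ℝ, α ∈ Icc (0 : ℝ) 1 → β ∈ Icc (0 : ℝ) 1 → α ≤ β →
      rho g' L' (φ (γ α)) (φ (γ β)) ≤ ∫ s in α..β, k s := by
    intro α β hα hβ hαβ
    have hmem : ∀ r ∈ Icc (0 : ℝ) 1, α + r * (β - α) ∈ Icc (0 : ℝ) 1 := by
      intro r hr
      constructor
      · nlinarith [hr.1, hα.1, mul_nonneg hr.1 (sub_nonneg.2 hαβ)]
      · nlinarith [hr.2, hβ.2, mul_nonneg (sub_nonneg.2 hr.2) (sub_nonneg.2 hαβ)]
    have hmaps : MapsTo (fun r : ℝ => α + r * (β - α)) (Icc 0 1) (Icc 0 1) := fun r hr => hmem r hr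
    have hd : ∀ r : ℝ, HasDerivWithinAt (fun r : ℝ => α + r * (β - α)) (β - α) (Icc 0 1) r := by
      intro r
      have := ((hasDerivAt_id r).mul_const (β - α)).const_add α
      simpa using this.hasDerivWithinAt
    have hcc : IsCurve (fun r => φ (γ (α + r * (β - α))))
        (fun r => (β - α) • fderiv ℝ φ (γ (α + r * (β - α))) (u (α + r * (β - α))))
        (φ (γ α)) (φ (γ β)) := by
      refine ⟨fun r hr => hφ.maps (hc.mem _ (hmem r hr)), fun r hr => ?_, ?_, ?_, ?_⟩
      · have h1 : HasDerivWithinAt (fun s => φ (γ s))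
            (fderiv ℝ φ (γ (α + r * (β - α))) (u (α + r * (β - α)))) (Icc 0 1)
            (α + r * (β - α)) :=
          HasFDerivAt.comp_hasDerivWithinAt (f := γ) (l := φ) _
            ((hφ.smooth.differentiable (by norm_num)) _).hasFDerivAt (hc.der _ (hmem r hr))
        exact HasDerivWithinAt.scomp r h1 (hd r) hmaps
      · have h1 : ContinuousOn (fun r : ℝ => α + r * (β - α)) (Icc 0 1) := by fun_prop
        exact continuousOn_const.smul ((hfc.comp_continuousOn (hγc.comp h1 hmaps)).clm_apply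
          (hc.cont.comp h1 hmaps))
      · simp
      · simp
    refine (h'.rho_le_length (hφ.maps (hc.mem α hα)) hcc).trans (le_of_eq ?_)
    rw [length]
    have h2 : ∀ r : ℝ, √(g' (φ (γ (α + r * (β - α))))
        ((β - α) • fderiv ℝ φ (γ (α + r * (β - α))) (u (α + r * (β - α))))
        ((β - α) • fderiv ℝ φ (γ (α + r * (β - α))) (u (α + r * (β - α))))) =
        (β - α) * k (α + (β - α) * r) := by
      intro r
      rw [mul_comm r]
      simp only [map_smul, smul_apply, smul_eq_mul, hk, pull_apply]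
      rw [← mul_assoc, Real.sqrt_mul (mul_self_nonneg _), Real.sqrt_mul_self (sub_nonneg.2 hαβ)]
    simp only [h2]
    rw [intervalIntegral.integral_const_mul, ← smul_eq_mul,
      intervalIntegral.smul_integral_comp_add_mul]
    simp
  have h1 := key 0 t zero_mem01 ht ht.1
  have h2 := key t 1 ht one_mem01 ht.2
  rw [hc.start] at h1
  rw [hc.finish] at h2
  have i1 : IntervalIntegrable k volume 0 t :=
    ContinuousOn.intervalIntegrable (by
      rw [uIcc_of_le ht.1]; exact hkc.mono (Icc_subset_Icc_right ht.2))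
  have i2 : IntervalIntegrable k volume t 1 :=
    ContinuousOn.intervalIntegrable (by
      rw [uIcc_of_le ht.2]; exact hkc.mono (Icc_subset_Icc_left ht.1))
  rw [← intervalIntegral.integral_add_adjacent_intervals i1 i2]
  linarith

variable [FiniteDimensional ℝ E]

/-- equality in the triangle inequality, also on the boundary -/
lemma mem_seg_closed (h : Simple g e L) {p q z : E} (hp : p ∈ sphere (0 : E) 1)
    (hq : q ∈ sphere (0 : E) 1) (hz : z ∈ closedBall (0 : E) 1)
    (heq : rho g L p z + rho g L q z ≤ rho g L p q) : z ∈ seg g p q := by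
  have hpM := mem_of_sphere hp
  have hqM := mem_of_sphere hq
  by_cases hzp : z = p
  · rw [hzp]; exact h.left_mem_seg hpM hqM
  by_cases hzq : z = q
  · rw [hzq, seg_symm]; exact h.left_mem_seg hqM hpM
  by_cases hz1 : ‖z‖ < 1
  · exact h.mem_seg_of_rho hp hq hz1 heq
  exfalso
  have hzS : z ∈ sphere (0 : E) 1 := by
    have h1 : ‖z‖ ≤ 1 := by simpa using hz
    have h2 : ‖z‖ = 1 := le_antisymm h1 (not_lt.1 hz1)
    simpa using h2
  -- an interior point of the geodesic from `p` to `z`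
  have ht : (1 / 2 : ℝ) ∈ Ioo (0 : ℝ) 1 := by constructor <;> norm_num
  have ht' := Ioo_subset_Icc_self ht
  set y := e p ((1 / 2 : ℝ) • L p z) with hy
  have hy1 : ‖y‖ < 1 := h.pt_interior hpM hz (Ne.symm hzp) ht
  have hyM := mem_of_norm_lt hy1
  have r1 : rho g L p y = 1 / 2 * rho g L p z := h.rho_pt hpM hz ht'
  have r2 : rho g L z y = (1 - 1 / 2) * rho g L p z := h.rho_pt' hpM hz ht'
  have h1 : rho g L p y + rho g L q y ≤ rho g L p q := by
    have h2 := h.triangle hqM hz hyM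
    linarith
  have h2 := h.mem_seg_of_rho hp hq hy1 h1
  obtain ⟨s, hs, hys⟩ := (h.mem_seg hpM hqM).1 h2
  have hpq : p ≠ q := by
    rintro rfl
    rw [h.L_self hpM, smul_zero, h.e_zero hpM] at hys
    exact ne_of_sphere hy1 hp hys
  have l1 : L p y = (1 / 2 : ℝ) • L p z := h.L_pt hpM hz ht'
  have l2 : L p y = s • L p q := by rw [hys]; exact h.L_pt hpM hqM hs
  have hs0 : s ≠ 0 := by
    rintro rfl
    rw [zero_smul, h.e_zero hpM] at hys
    exact ne_of_sphere hy1 hp hys
  have hspos : 0 < s := lt_of_le_of_ne hs.1 (Ne.symm hs0)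
  refine hzq (h.exit_unique hpM hq hzS hpq (Ne.symm hzp) (s := 2 * s) (by positivity) ?_)
  rw [mul_smul, ← l2, l1, smul_smul]
  norm_num

/-- concurrency from lengths -/
lemma conc_of_len (h : Simple g e L) (h' : Simple g' e' L') (hφ : IsBdryMap φ)
    (hd : ∀ p ∈ sphere (0 : E) 1, ∀ q ∈ sphere (0 : E) 1, rho g L p q = rho g' L' p q)
    (hlen : ∀ p ∈ sphere (0 : E) 1, ∀ q ∈ sphere (0 : E) 1, p ≠ q → ∀ γ u : ℝ → E, IsGeod g γ u →
      γ 0 = p → γ 1 = q →
      ∫ s in (0 : ℝ)..1, √(pull φ g' (γ s) (u s) (u s)) ≤ rho g L p q)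
    {x : E} (hx : ‖x‖ < 1) : Conc g g' x (φ x) := by
  intro p hp q hq hxs
  have hxs0 := hxs
  obtain ⟨γ, u, hγ, h0, h1, t, ht, hxt⟩ := hxs
  have hpM := mem_of_sphere hp
  have hqM := mem_of_sphere hq
  have hpq : p ≠ q := by
    rintro rfl
    obtain ⟨s, hs, hys⟩ := (h.mem_seg hpM hpM).1 hxs0
    rw [h.L_self hpM, smul_zero, h.e_zero hpM] at hys
    exact ne_of_sphere hx hp hys
  have hc := Simple.isCurve_geod hγ
  rw [h0, h1] at hc
  have h2 := split_le h' hφ hc ht
  have h3 := hlen p hp q hq hpq γ u hγ h0 h1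
  rw [hφ.bdry p hp, hφ.bdry q hq, hxt] at h2
  have hφx := hφ.maps (mem_of_norm_lt hx)
  rw [h'.rho_symm hφx hqM] at h2
  exact mem_seg_closed h' hp hq hφx (by rw [← hd p hp q hq]; linarith)

/-- isometric maps do not change the lengths -/
lemma len_of_iso (h : Simple g e L)
    (hiso : ∀ x ∈ closedBall (0 : E) 1, pull φ g' x = g x) {p q : E} {γ u : ℝ → E}
    (hγ : IsGeod g γ u) (h0 : γ 0 = p) (h1 : γ 1 = q) :
    ∫ s in (0 : ℝ)..1, √(pull φ g' (γ s) (u s) (u s)) = rho g L p q := by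
  have h2 := h.length_geod hγ
  rw [h0, h1] at h2
  rw [← h2, length]
  refine intervalIntegral.integral_congr fun t ht => ?_
  rw [uIcc_of_le zero_le_one] at ht
  rw [hiso _ (hγ.mem t ht)]

/-- the distances to the boundary determine the point -/
lemma eq_of_rho (h : Simple g e L) {x y : E} (hx : ‖x‖ < 1) (hy : ‖y‖ < 1)
    (heq : ∀ p ∈ sphere (0 : E) 1, rho g L x p = rho g L y p) : x = y := by
  by_contra hne
  have hxM := mem_of_norm_lt hx
  have hyM := mem_of_norm_lt hy
  obtain ⟨q, hq, t, ht, hy1, hy2⟩ := h.exit_seg hxM hy hne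
  have hqM := mem_of_sphere hq
  have r1 : rho g L q y = (1 - t) * rho g L x q := by
    rw [hy1]; exact h.rho_pt' hxM hqM (Ioo_subset_Icc_self ht)
  have h2 := heq q hq
  rw [h.rho_symm hyM hqM, r1] at h2
  have h3 := h.rho_pos hxM hqM (ne_of_sphere hx hq)
  nlinarith [ht.1]

/-- a map which does not increase the lengths of the geodesics is an isometry -/
theorem iso_of_len (h : Simple g e L) (h' : Simple g' e' L') (hn : 1 < Module.finrank ℝ E)
    (hφ : IsBdryMap φ)
    (hd : ∀ p ∈ sphere (0 : E) 1, ∀ q ∈ sphere (0 : E) 1, rho g L p q = rho g' L' p q)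
    (hlen : ∀ p ∈ sphere (0 : E) 1, ∀ q ∈ sphere (0 : E) 1, p ≠ q → ∀ γ u : ℝ → E, IsGeod g γ u →
      γ 0 = p → γ 1 = q →
      ∫ s in (0 : ℝ)..1, √(pull φ g' (γ s) (u s) (u s)) ≤ rho g L p q) :
    ∃ ψ χ : E → E, ContDiff ℝ ∞ ψ ∧ ContDiff ℝ ∞ χ ∧
      (∀ x ∈ closedBall (0 : E) 1, ψ x ∈ closedBall (0 : E) 1 ∧ χ (ψ x) = x) ∧
      (∀ y ∈ closedBall (0 : E) 1, χ y ∈ closedBall (0 : E) 1 ∧ ψ (χ y) = y) ∧
      (∀ p ∈ sphere (0 : E) 1, ψ p = p) ∧
      (∀ x ∈ closedBall (0 : E) 1, ∀ v w,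
        g' (ψ x) (fderiv ℝ ψ x v) (fderiv ℝ ψ x w) = g x v w) ∧
      (∀ x ∈ closedBall (0 : E) 1, φ x = ψ x) ∧
      ∀ x ∈ closedBall (0 : E) 1, pull φ g' x = g x := by
  have hconc : ∀ x : E, ‖x‖ < 1 → Conc g g' x (φ x) := fun x hx =>
    conc_of_len h h' hφ hd hlen hx
  obtain ⟨ψ, χ, hψ, hχ, h1, h2, h3, h4⟩ := h.isometry_of_conc h' hn hd fun x hx =>
    ⟨φ x, hφ.maps (mem_of_norm_lt hx), hconc x hx⟩
  refine ⟨ψ, χ, hψ, hχ, h1, h2, h3, h4, ?_⟩
  have hψi : ∀ x : E, ‖x‖ < 1 → ‖ψ x‖ < 1 := by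
    intro x hx
    refine lt_of_le_of_ne (by simpa using (h1 x (mem_of_norm_lt hx)).1) fun hb => ?_
    have hS : ψ x ∈ sphere (0 : E) 1 := by simpa using hb
    have k1 := h3 _ hS
    have k2 := (h1 _ (mem_of_sphere hS)).2
    rw [k1, (h1 x (mem_of_norm_lt hx)).2] at k2
    rw [← k2] at hb
    linarith
  have heq : ∀ x : E, ‖x‖ < 1 → φ x = ψ x := by
    intro x hx
    have hφi := h.conc_interior h' hn hx (hφ.maps (mem_of_norm_lt hx)) (hconc x hx)
    refine eq_of_rho h' hφi (hψi x hx) fun p hp => ?_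
    have k1 := h.rho_eq_of_isometry h' hψ (fun x hx => (h1 x hx).1) h3 h4 hd hx hp
    have k2 := h.conc_rho h' hn hd hx (hφ.maps (mem_of_norm_lt hx)) (hconc x hx) hp
    rw [k1, k2]
  have heq' : ∀ x ∈ closedBall (0 : E) 1, φ x = ψ x := by
    intro x hx
    by_cases hx1 : ‖x‖ < 1
    · exact heq x hx1
    · have hxS : x ∈ sphere (0 : E) 1 := by
        have k1 : ‖x‖ ≤ 1 := by simpa using hx
        have k2 : ‖x‖ = 1 := le_antisymm k1 (not_lt.1 hx1)
        simpa using k2
      rw [hφ.bdry x hxS, h3 x hxS]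
  refine ⟨heq', ?_⟩
  have hopen : ∀ x ∈ ball (0 : E) 1, pull φ g' x = g x := by
    intro x hx
    have hev : φ =ᶠ[𝓝 x] ψ := by
      filter_upwards [isOpen_ball.mem_nhds hx] with y hy
      exact heq y (by simpa using hy)
    ext v w
    rw [pull_apply, hev.fderiv_eq, hev.self_of_nhds]
    exact h4 x (ball_subset_closedBall hx) v w
  have hcl : EqOn (pull φ g') g (closedBall (0 : E) 1) := by
    have k1 : EqOn (pull φ g') g (ball (0 : E) 1) := hopen
    refine k1.of_subset_closure (continuous_pull h'.smooth.continuous hφ.smooth).continuousOn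
      h.smooth.continuous.continuousOn ball_subset_closedBall ?_
    rw [closure_ball (0 : E) one_ne_zero]
  exact hcl

end Pool.Agent.W9h56.BE
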