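import Pool.Agent.H85.BE.Gen

/-!
# The equality case of the integrated comparison
-/

open Set Metric Filter Topology MeasureTheory
open scoped ContDiff RealInnerProductSpace ENNReal

noncomputable section

set_option maxSynthPendingDepth 3

namespace Pool.Agent.W9h56.BE

open Pool.Agent.W5h72.BR

variable {E : Type*} [NormedAddCommGroup E] [InnerProductSpace ℝ E]

variable {g g' : E → E →L[ℝ] E →L[ℝ] ℝ} {e L e' L' : E → E → E} {φ : E → E} {G G1 G2 : E × E → ℝ}

lemma continuous_rho (h : Simple g e L) : Continuous fun w : E × E => rho g L w.1 w.2 := by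
  have h1 : Continuous fun w : E × E => L w.1 w.2 := h.L_smooth.continuous
  have h2 : Continuous fun w : E × E => g w.1 := h.smooth.continuous.comp continuous_fst
  exact ((h2.clm_apply h1).clm_apply h1).sqrt

/-- the point on the geodesic -/
def PP (e L : E → E → E) (w : E × E × ℝ) : E := e w.1 (w.2.2 • L w.1 w.2.1)

lemma continuous_PP (h : Simple g e L) : Continuous (PP e L) := by
  have h1 : Continuous fun w : E × E × ℝ => L w.1 w.2.1 :=
    h.L_smooth.continuous.comp (continuous_fst.prodMk (continuous_fst.comp continuous_snd))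
  have h2 : Continuous fun w : E × E × ℝ => w.2.2 • L w.1 w.2.1 :=
    (continuous_snd.comp continuous_snd).smul h1
  exact h.e_smooth.continuous.comp (continuous_fst.prodMk h2)

variable [FiniteDimensional ℝ E]

/-- a neighbourhood of a unit vector which is avoided by the geodesics with end points outside of
a neighbourhood of the end points -/
lemma exists_nbhd (h : Simple g e L) {V : Set (E × E)} (hV : IsOpen V) {p0 q0 : E}
    (hp0 : p0 ∈ sphere (0 : E) 1) (hq0 : q0 ∈ sphere (0 : E) 1) (hpq0 : p0 ≠ q0)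
    (hV0 : (p0, q0) ∈ V) {t0 : ℝ} (ht0 : t0 ∈ Ioo (0 : ℝ) 1) :
    ∃ δ > 0, ∀ p ∈ sphere (0 : E) 1, ∀ q ∈ sphere (0 : E) 1, (p, q) ∉ V → ∀ t ∈ Icc (0 : ℝ) 1,
      (PP e L (p, q, t), uu g L (PP e L (p, q, t)) p) ∉
        ball (PP e L (p0, q0, t0), uu g L (PP e L (p0, q0, t0)) p0) δ := by
  have hp0M := mem_of_sphere hp0
  have hq0M := mem_of_sphere hq0
  set x0 := PP e L (p0, q0, t0) with hx0
  have hx01 : ‖x0‖ < 1 := h.pt_interior hp0M hq0M hpq0 ht0
  set r' := (1 + ‖x0‖) / 2 with hr'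
  have hr1 : r' < 1 := by rw [hr']; linarith
  have hr2 : ‖x0‖ < r' := by rw [hr']; linarith
  set C : Set (E × E × ℝ) := {w | (w.1 ∈ sphere (0 : E) 1 ∧ w.2.1 ∈ sphere (0 : E) 1 ∧
    w.2.2 ∈ Icc (0 : ℝ) 1) ∧ (w.1, w.2.1) ∉ V ∧ ‖PP e L w‖ ≤ r'} with hC
  have hCc : IsCompact C := by
    have h1 : IsCompact (sphere (0 : E) 1 ×ˢ (sphere (0 : E) 1 ×ˢ Icc (0 : ℝ) 1)) :=
      (isCompact_sphere 0 1).prod ((isCompact_sphere 0 1).prod isCompact_Icc)
    have h2 : IsClosed {w : E × E × ℝ | (w.1, w.2.1) ∉ V ∧ ‖PP e L w‖ ≤ r'} := by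
      refine IsClosed.inter ?_ (isClosed_le (continuous_PP h).norm continuous_const)
      exact hV.isClosed_compl.preimage
        (continuous_fst.prodMk (continuous_fst.comp continuous_snd))
    exact h1.inter_right h2
  have hmem : ∀ w ∈ C, PP e L w ≠ w.1 := by
    rintro w ⟨⟨h1, h2, h3⟩, h4, h5⟩
    exact ne_of_sphere (lt_of_le_of_lt h5 hr1) h1
  set Φ : E × E × ℝ → E × E := fun w => (PP e L w, uu g L (PP e L w) w.1) with hΦ
  have hΦc : ContinuousOn Φ C := by
    refine (continuous_PP h).continuousOn.prodMk ?_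
    have k1 : Continuous fun w : E × E × ℝ => (PP e L w, w.1) :=
      (continuous_PP h).prodMk continuous_fst
    refine ContinuousOn.smul (ContinuousOn.inv₀ ((continuous_rho h).comp k1).continuousOn ?_)
      (h.L_smooth.continuous.comp k1).continuousOn
    rintro w hw
    obtain ⟨⟨h1, h2, h3⟩, h4, h5⟩ := hw
    exact (h.rho_pos (mem_of_norm_lt (lt_of_le_of_lt h5 hr1)) (mem_of_sphere h1)
      (hmem w ⟨⟨h1, h2, h3⟩, h4, h5⟩)).ne'
  have hcl : IsClosed (Φ '' C) := (hCc.image_of_continuousOn hΦc).isClosed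
  have hnot : (x0, uu g L x0 p0) ∉ Φ '' C := by
    rintro ⟨⟨p, q, t⟩, ⟨⟨h1, h2, h3⟩, h4, h5⟩, h6⟩
    simp only [hΦ, Prod.mk.injEq] at h6 h1 h2 h3 h4
    obtain ⟨h7, h8⟩ := h6
    rw [h7] at h8
    have hpp : p = p0 := uu_inj h hx01 h1 hp0 h8
    subst hpp
    have hpM := mem_of_sphere h1
    have hqM := mem_of_sphere h2
    have k1 : L p x0 = t0 • L p q0 := h.L_pt hp0M hq0M (Ioo_subset_Icc_self ht0)
    have k2 : L p x0 = t • L p q := by
      rw [← h7]
      exact h.L_pt hpM hqM h3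
    have ht : t ≠ 0 := by
      rintro rfl
      rw [zero_smul] at k2
      exact ne_of_sphere hx01 h1 ((h.L_eq_zero hpM (mem_of_norm_lt hx01)).1 k2).symm
    have htp : 0 < t := lt_of_le_of_ne h3.1 (Ne.symm ht)
    have hpq : p ≠ q := by
      rintro rfl
      rw [h.L_self hpM, smul_zero] at k2
      exact ne_of_sphere hx01 h1 ((h.L_eq_zero hpM (mem_of_norm_lt hx01)).1 k2).symm
    have k3 : q = q0 := by
      refine h.exit_unique hpM hq0 h2 hpq0 hpq (s := t0 / t) (div_pos ht0.1 htp) ?_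
      rw [k1] at k2
      rw [div_eq_inv_mul, mul_smul, k2, smul_smul, inv_mul_cancel₀ ht, one_smul]
    rw [k3] at h4
    exact h4 hV0
  have hopen : IsOpen ((Φ '' C)ᶜ ∩ {w : E × E | ‖w.1‖ < r'}) :=
    hcl.isOpen_compl.inter (isOpen_lt continuous_fst.norm continuous_const)
  obtain ⟨δ, hδ, hsub⟩ := Metric.isOpen_iff.1 hopen (x0, uu g L x0 p0) ⟨hnot, hr2⟩
  refine ⟨δ, hδ, fun p hp q hq hpqV t ht hball => ?_⟩
  obtain ⟨k1, k2⟩ := hsub hball
  exact k1 ⟨(p, q, t), ⟨⟨hp, hq, ht⟩, hpqV, le_of_lt k2⟩, rfl⟩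

variable [MeasurableSpace E] [BorelSpace E]

/-- the equality case -/
theorem len_eq (h : Simple g e L) (hG : Continuous G) (hG0 : ∀ w, 0 ≤ G w)
    {K : E × E → ℝ} (hK : Continuous K)
    (hKK : ∀ p ∈ sphere (0 : E) 1, ∀ q ∈ sphere (0 : E) 1, p ≠ q →
      KK g e L G p q = ENNReal.ofReal (K (p, q)))
    (hlen : ∀ p ∈ sphere (0 : E) 1, ∀ q ∈ sphere (0 : E) 1, p ≠ q → rho g L p q ≤ K (p, q))
    (hfin : ∫⁻ x in ball (0 : E) 1, ∫⁻ z in S0, ENNReal.ofReal |(AA g L (x, z)).det| ≠ ⊤)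
    (hI : II g L G ≤
      ∫⁻ x in ball (0 : E) 1, ∫⁻ z in S0, ENNReal.ofReal |(AA g L (x, z)).det|)
    {p0 q0 : E} (hp0 : p0 ∈ sphere (0 : E) 1) (hq0 : q0 ∈ sphere (0 : E) 1) (hpq0 : p0 ≠ q0) :
    K (p0, q0) ≤ rho g L p0 q0 := by
  by_contra hcon
  push Not at hcon
  have hp0M := mem_of_sphere hp0
  have hq0M := mem_of_sphere hq0
  have hr0 := h.rho_pos hp0M hq0M hpq0
  have hK0 : 0 < K (p0, q0) := hr0.trans hcon
  obtain ⟨ε, hε0, hε1, hε⟩ : ∃ ε : ℝ, 0 < ε ∧ ε < 1 ∧ rho g L p0 q0 < (1 - ε) * K (p0, q0) := by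
    refine ⟨(K (p0, q0) - rho g L p0 q0) / (2 * K (p0, q0)), by
      have := sub_pos.2 hcon; positivity, ?_, ?_⟩
    · rw [div_lt_one (by positivity)]; linarith
    · have h1 : (1 - (K (p0, q0) - rho g L p0 q0) / (2 * K (p0, q0))) * K (p0, q0) =
          (K (p0, q0) + rho g L p0 q0) / 2 := by field_simp; ring
      rw [h1]; linarith
  set V : Set (E × E) := {w | rho g L w.1 w.2 < (1 - ε) * K w} with hV
  have hVo : IsOpen V := isOpen_lt (continuous_rho h) (continuous_const.mul hK)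
  -- a point with positive speed
  obtain ⟨s0, hs0, hG00⟩ : ∃ s ∈ Ioo (0 : ℝ) (rho g L p0 q0),
      0 < G (e p0 ((s / rho g L p0 q0) • L p0 q0),
        uu g L (e p0 ((s / rho g L p0 q0) • L p0 q0)) p0) := by
    by_contra hno
    push Not at hno
    have h1 : KK g e L G p0 q0 = 0 := by
      rw [KK, setLIntegral_congr_fun measurableSet_Ioo fun s hs =>
        ENNReal.ofReal_of_nonpos (hno s hs)]
      simp
    rw [hKK p0 hp0 q0 hq0 hpq0] at h1
    exact absurd (ENNReal.ofReal_eq_zero.1 h1) (not_le.2 hK0)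
  have ht0 : s0 / rho g L p0 q0 ∈ Ioo (0 : ℝ) 1 := ⟨div_pos hs0.1 hr0, (div_lt_one hr0).2 hs0.2⟩
  obtain ⟨δ, hδ, hδN⟩ := exists_nbhd h hVo hp0 hq0 hpq0 hε ht0
  set w0 : E × E := (PP e L (p0, q0, s0 / rho g L p0 q0),
    uu g L (PP e L (p0, q0, s0 / rho g L p0 q0)) p0) with hw0
  set β : E × E → ℝ := fun w => max 0 (1 - dist w w0 / δ) with hβ
  have hβc : Continuous β := by
    rw [hβ]; fun_prop
  have hβ0 : ∀ w, 0 ≤ β w := fun w => le_max_left _ _
  have hβ1 : ∀ w, β w ≤ 1 := fun w => max_le zero_le_one (by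
    have : 0 ≤ dist w w0 / δ := by positivity
    linarith)
  have hβw : β w0 = 1 := by rw [hβ]; simp
  have hβn : ∀ w, w ∉ ball w0 δ → β w = 0 := fun w hw => by
    rw [mem_ball, not_lt] at hw
    have : 1 ≤ dist w w0 / δ := (one_le_div hδ).2 hw
    exact max_eq_left (by linarith)
  set G1 : E × E → ℝ := fun w => G w * (1 - ε * β w) with hG1
  set G2 : E × E → ℝ := fun w => G w * (ε * β w) with hG2
  have hεβ : ∀ w, ε * β w ≤ ε := fun w => by nlinarith [hβ1 w]
  have hG1c : Continuous G1 := hG.mul (continuous_const.sub (continuous_const.mul hβc))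
  have hG2c : Continuous G2 := hG.mul (continuous_const.mul hβc)
  have hG10 : ∀ w, 0 ≤ G1 w := fun w => mul_nonneg (hG0 w) (by linarith [hεβ w])
  have hG20 : ∀ w, 0 ≤ G2 w := fun w => mul_nonneg (hG0 w) (mul_nonneg hε0.le (hβ0 w))
  have hsum : (fun w => G1 w + G2 w) = G := by
    ext w; simp only [hG1, hG2]; ring
  have hlen1 : ∀ p ∈ sphere (0 : E) 1, ∀ q ∈ sphere (0 : E) 1, p ≠ q →
      ENNReal.ofReal (rho g L p q) ≤ KK g e L G1 p q := by
    intro p hp q hq hpq
    have hr := h.rho_pos (mem_of_sphere hp) (mem_of_sphere hq) hpq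
    by_cases hpqV : (p, q) ∈ V
    · have h1 : ENNReal.ofReal ((1 - ε) * K (p, q)) ≤ KK g e L G1 p q := by
        rw [ENNReal.ofReal_mul (by linarith), ← hKK p hp q hq hpq, KK, KK,
          ← lintegral_const_mul' _ _ ENNReal.ofReal_ne_top]
        refine lintegral_mono fun s => ?_
        rw [← ENNReal.ofReal_mul (by linarith)]
        refine ENNReal.ofReal_le_ofReal ?_
        simp only [hG1]
        rw [mul_comm]
        exact mul_le_mul_of_nonneg_left (by linarith [hεβ (e p ((s / rho g L p q) • L p q),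
          uu g L (e p ((s / rho g L p q) • L p q)) p)]) (hG0 _)
      exact (ENNReal.ofReal_le_ofReal (le_of_lt hpqV)).trans h1
    · have h1 : KK g e L G1 p q = KK g e L G p q := by
        rw [KK, KK]
        refine setLIntegral_congr_fun measurableSet_Ioo fun s hs => ?_
        have ht : s / rho g L p q ∈ Icc (0 : ℝ) 1 :=
          ⟨(div_pos hs.1 hr).le, ((div_lt_one hr).2 hs.2).le⟩
        have h2 := hβn _ (hδN p hp q hq hpqV _ ht)
        simp only [PP] at h2
        simp only [hG1]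
        rw [h2, mul_zero, sub_zero, mul_one]
      rw [h1, hKK p hp q hq hpq]
      exact ENNReal.ofReal_le_ofReal (hlen p hp q hq hpq)
  have h1 := ton_gen h hG1c hlen1
  have h2 := II_add h hG1c hG2c hG10 hG20
  rw [hsum] at h2
  rw [h2] at hI
  have h3 : II g L G1 ≠ ⊤ := ne_top_of_le_ne_top hfin ((le_add_right le_rfl).trans hI)
  have h4 : II g L G2 = 0 := by
    have h5 : II g L G1 + II g L G2 ≤ II g L G1 + 0 := by rw [add_zero]; exact hI.trans h1
    exact le_antisymm ((ENNReal.add_le_add_iff_left h3).1 h5) bot_le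
  have hx01 : ‖PP e L (p0, q0, s0 / rho g L p0 q0)‖ < 1 := h.pt_interior hp0M hq0M hpq0 ht0
  have h5 := II_zero h hG2c hG20 h4 hx01 (uu_unit h hx01 hp0)
  rw [← hw0] at h5
  have h6 : G2 w0 = G w0 * ε := by simp only [hG2]; rw [hβw, mul_one]
  rw [h6] at h5
  exact (mul_pos hG00 hε0).ne' h5

end Pool.Agent.W9h56.BE
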