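import Pool.Agent.H85.BE.Sharp
import Pool.Agent.H85.BE.IsoMap

/-!
# The lengths of the images of the geodesics depend continuously on the end points
-/

open Set Metric Filter Topology MeasureTheory
open scoped ContDiff RealInnerProductSpace ENNReal

noncomputable section

set_option maxSynthPendingDepth 3

namespace Pool.Agent.W9h56.BE

open Pool.Agent.W5h72.BR

variable {E : Type*} [NormedAddCommGroup E] [InnerProductSpace ℝ E]

variable {g g' : E → E →L[ℝ] E →L[ℝ] ℝ} {e L e' L' : E → E → E} {φ : E → E}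

/-- the velocity of the geodesic -/
def VV (e L : E → E → E) (w : E × E × ℝ) : E :=
  fderiv ℝ (e w.1) (w.2.2 • L w.1 w.2.1) (L w.1 w.2.1)

lemma VV_eq (h : Simple g e L) (w : E × E × ℝ) : VV e L w =
    fderiv ℝ (fun z : E × E => e z.1 z.2) (w.1, w.2.2 • L w.1 w.2.1) (0, L w.1 w.2.1) := by
  have h1 : HasFDerivAt (fun z : E × E => e z.1 z.2)
      (fderiv ℝ (fun z : E × E => e z.1 z.2) (w.1, w.2.2 • L w.1 w.2.1))
      (w.1, w.2.2 • L w.1 w.2.1) := (h.e_smooth.differentiable (by simp) _).hasFDerivAt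
  have h2 : HasFDerivAt (e w.1)
      ((fderiv ℝ (fun z : E × E => e z.1 z.2) (w.1, w.2.2 • L w.1 w.2.1)).comp
        (ContinuousLinearMap.inr ℝ E E)) (w.2.2 • L w.1 w.2.1) :=
    HasFDerivAt.comp _ (f := fun v : E => (w.1, v)) h1
      (hasFDerivAt_prodMk_right (𝕜 := ℝ) w.1 (w.2.2 • L w.1 w.2.1))
  rw [VV, h2.fderiv]
  rfl

lemma continuous_VV (h : Simple g e L) : Continuous (VV e L) := by
  have h1 : Continuous fun w : E × E × ℝ => L w.1 w.2.1 :=
    h.L_smooth.continuous.comp (continuous_fst.prodMk (continuous_fst.comp continuous_snd))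
  have h2 : Continuous fun w : E × E × ℝ => (w.1, w.2.2 • L w.1 w.2.1) :=
    continuous_fst.prodMk ((continuous_snd.comp continuous_snd).smul h1)
  have h3 : Continuous (fderiv ℝ (fun z : E × E => e z.1 z.2)) :=
    h.e_smooth.continuous_fderiv (by simp)
  have h4 : VV e L = fun w => fderiv ℝ (fun z : E × E => e z.1 z.2)
      (w.1, w.2.2 • L w.1 w.2.1) (0, L w.1 w.2.1) := funext fun w => VV_eq h w
  rw [h4]
  exact (h3.comp h2).clm_apply (continuous_const.prodMk h1)

/-- the length of `φ ∘ γ` for the geodesic `γ` from `w.1` to `w.2` -/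
def KP (e L : E → E → E) (φ : E → E) (g' : E → E →L[ℝ] E →L[ℝ] ℝ) (w : E × E) : ℝ :=
  ∫ t in (0 : ℝ)..1, √(pull φ g' (PP e L (w.1, w.2, t)) (VV e L (w.1, w.2, t))
    (VV e L (w.1, w.2, t)))

lemma continuous_KP [FiniteDimensional ℝ E] (h : Simple g e L) (hg : Continuous g')
    (hφ : ContDiff ℝ 1 φ) : Continuous (KP e L φ g') := by
  refine intervalIntegral.continuous_parametric_intervalIntegral_of_continuous' (μ := volume)
    (f := fun (w : E × E) (t : ℝ) => √(pull φ g' (PP e L (w.1, w.2, t)) (VV e L (w.1, w.2, t))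
      (VV e L (w.1, w.2, t)))) ?_ 0 1
  have h1 : Continuous fun w : (E × E) × ℝ => (w.1.1, w.1.2, w.2) := by fun_prop
  have h2 : Continuous fun w : (E × E) × ℝ => PP e L (w.1.1, w.1.2, w.2) :=
    (continuous_PP h).comp h1
  have h3 : Continuous fun w : (E × E) × ℝ => VV e L (w.1.1, w.1.2, w.2) :=
    (continuous_VV h).comp h1
  exact ((((continuous_pull hg hφ).comp h2).clm_apply h3).clm_apply h3).sqrt

lemma geod_data (h : Simple g e L) {p q : E} {γ u : ℝ → E} (hγ : IsGeod g γ u)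
    (h0 : γ 0 = p) (h1 : γ 1 = q) {t : ℝ} (ht : t ∈ Icc (0 : ℝ) 1) :
    γ t = PP e L (p, q, t) ∧ u t = VV e L (p, q, t) := by
  have hu : L p q = u 0 := by
    have := h.L_geod hγ zero_mem01 one_mem01
    rw [h0, h1, sub_zero, one_smul] at this
    exact this
  have hγt : ∀ s ∈ Icc (0 : ℝ) 1, γ s = e p (s • L p q) := fun s hs => by
    rw [h.geod_eq hγ hs, h0, hu]
  refine ⟨hγt t ht, ?_⟩
  have d1 : HasDerivWithinAt (fun s : ℝ => e p (s • L p q)) (u t) (Icc 0 1) t :=
    (hγ.vel t ht).congr (fun s hs => (hγt s hs).symm) (hγt t ht).symm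
  have d2 : HasDerivAt (fun s : ℝ => e p (s • L p q)) (VV e L (p, q, t)) t := by
    have k1 : HasDerivAt (fun s : ℝ => s • L p q) (L p q) t := by
      simpa using (hasDerivAt_id t).smul_const (L p q)
    exact HasFDerivAt.comp_hasDerivAt (l := e p) t
      ((h.e_smooth_right p).differentiable (by simp) _).hasFDerivAt k1
  exact (uniqueDiffOn_Icc (zero_lt_one' ℝ) t ht).eq_deriv _ d1 d2.hasDerivWithinAt

lemma KP_eq (h : Simple g e L) {p q : E} {γ u : ℝ → E} (hγ : IsGeod g γ u)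
    (h0 : γ 0 = p) (h1 : γ 1 = q) :
    KP e L φ g' (p, q) = ∫ s in (0 : ℝ)..1, √(pull φ g' (γ s) (u s) (u s)) := by
  refine intervalIntegral.integral_congr fun t ht => ?_
  rw [uIcc_of_le zero_le_one] at ht
  obtain ⟨k1, k2⟩ := geod_data h hγ h0 h1 ht
  simp only
  rw [← k1, ← k2]

/-- the speed -/
def G0 (φ : E → E) (g' : E → E →L[ℝ] E →L[ℝ] ℝ) (w : E × E) : ℝ := √(pull φ g' w.1 w.2 w.2)

lemma continuous_G0 (hg : Continuous g') (hφ : ContDiff ℝ 1 φ) : Continuous (G0 φ g') :=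
  (((continuous_pull hg hφ).comp continuous_fst).clm_apply continuous_snd).clm_apply
    continuous_snd |>.sqrt

lemma KK_eq (h : Simple g e L) (hg : Continuous g') (hφ : ContDiff ℝ 1 φ) {p q : E}
    (hp : p ∈ sphere (0 : E) 1) (hq : q ∈ sphere (0 : E) 1) (hpq : p ≠ q) :
    KK g e L (G0 φ g') p q = ENNReal.ofReal (KP e L φ g' (p, q)) := by
  have hpM := mem_of_sphere hp
  have hqM := mem_of_sphere hq
  have hr := h.rho_pos hpM hqM hpq
  rw [KK]
  set r := rho g L p q with hrd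
  obtain ⟨γ, u, hγ, h0, hu, h1⟩ := h.exists_geod hpM hqM
  have hc := Simple.isCurve_geod hγ
  rw [h0, h1] at hc
  set k : ℝ → ℝ := fun t => √(pull φ g' (γ t) (u t) (u t)) with hk
  have hkc : ContinuousOn k (Icc 0 1) := cont_speed hg hφ hc
  rw [KP_eq h hγ h0 h1]
  have hsub : ∫ s in (0 : ℝ)..r, r⁻¹ * k (s / r) = ∫ t in (0 : ℝ)..1, k t := by
    rw [intervalIntegral.integral_const_mul, intervalIntegral.integral_comp_div _ hr.ne', zero_div,
      div_self hr.ne', smul_eq_mul, inv_mul_cancel_left₀ hr.ne']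
  have hKc : ContinuousOn (fun s => r⁻¹ * k (s / r)) (Icc 0 r) := by
    refine continuousOn_const.mul (hkc.comp (by fun_prop) fun s hs => ?_)
    exact ⟨div_nonneg hs.1 hr.le, (div_le_one hr).2 hs.2⟩
  have hKn : ∀ s, 0 ≤ r⁻¹ * k (s / r) := fun s =>
    mul_nonneg (inv_nonneg.2 hr.le) (Real.sqrt_nonneg _)
  calc _ = ∫⁻ s in Ioo (0 : ℝ) r, ENNReal.ofReal (r⁻¹ * k (s / r)) := by
        refine setLIntegral_congr_fun measurableSet_Ioo fun s hs => ?_
        have ht : s / r ∈ Ioo (0 : ℝ) 1 := ⟨div_pos hs.1 hr, (div_lt_one hr).2 hs.2⟩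
        have ht' := Ioo_subset_Icc_self ht
        set t := s / r with htd
        have hγt : e p (t • L p q) = γ t := by
          have := h.geod_eq hγ ht'
          rw [h0, hu] at this
          exact this.symm
        have h2 : L (γ t) p = -(t • u t) := by
          have := h.L_geod hγ ht' zero_mem01
          rw [h0, zero_sub, neg_smul] at this
          exact this
        have h3 : rho g L (γ t) p = t * r := by
          rw [h.rho_symm (hγ.mem t ht') hpM, ← hγt, h.rho_pt hpM hqM ht']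
        have h4 : uu g L (γ t) p = (-r⁻¹) • u t := by
          rw [uu, h2, h3, smul_neg, ← neg_smul, smul_smul]
          congr 1
          have := ht.1.ne'
          field_simp
        simp only [G0]
        rw [hγt, h4]
        simp only [map_smul, smul_apply, smul_eq_mul, hk]
        rw [show -r⁻¹ * (-r⁻¹ * pull φ g' (γ t) (u t) (u t)) =
          r⁻¹ ^ 2 * pull φ g' (γ t) (u t) (u t) by ring, Real.sqrt_mul (sq_nonneg _),
          Real.sqrt_sq (inv_nonneg.2 hr.le)]
    _ = ENNReal.ofReal (∫ s in (0 : ℝ)..r, r⁻¹ * k (s / r)) := by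
        rw [intervalIntegral.integral_of_le hr.le, integral_Ioc_eq_integral_Ioo,
          ofReal_integral_eq_lintegral_ofReal
            ((hKc.integrableOn_compact isCompact_Icc).mono_set Ioo_subset_Icc_self)
            (Eventually.of_forall hKn)]
    _ = _ := by rw [hsub]

lemma len_ge (h : Simple g e L) (hg : IsMetric g') (hφ : IsBdryMap φ)
    (hd : ∀ p ∈ sphere (0 : E) 1, ∀ q ∈ sphere (0 : E) 1, gdist g p q ≤ gdist g' p q)
    {p q : E} (hp : p ∈ sphere (0 : E) 1) (hq : q ∈ sphere (0 : E) 1) (hpq : p ≠ q) :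
    rho g L p q ≤ KP e L φ g' (p, q) := by
  have h1 := len_le h hg hφ hd hp hq hpq
  have h2 := KK_eq h hg.cont hφ.smooth hp hq hpq
  rw [KK] at h2
  simp only [G0] at h2
  rw [h2] at h1
  refine (ENNReal.ofReal_le_ofReal_iff ?_).1 h1
  exact intervalIntegral.integral_nonneg zero_le_one fun t _ => Real.sqrt_nonneg _

variable [FiniteDimensional ℝ E] [MeasurableSpace E] [BorelSpace E]

lemma II_G0 : II g L (G0 φ g') = ∫⁻ x in ball (0 : E) 1, ∫⁻ z in S0,
    ENNReal.ofReal |(AA g L (x, z)).det| * ENNReal.ofReal (FF g g' L φ (x, z)) := rfl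

/-- the equality case: the images of the geodesics have the same lengths -/
theorem len_of_II (h : Simple g e L) (hg : IsMetric g') (hφ : IsBdryMap φ)
    (hd : ∀ p ∈ sphere (0 : E) 1, ∀ q ∈ sphere (0 : E) 1, gdist g p q ≤ gdist g' p q)
    (hfin : ∫⁻ x in ball (0 : E) 1, ∫⁻ z in S0, ENNReal.ofReal |(AA g L (x, z)).det| ≠ ⊤)
    (hI : II g L (G0 φ g') ≤
      ∫⁻ x in ball (0 : E) 1, ∫⁻ z in S0, ENNReal.ofReal |(AA g L (x, z)).det|)
    {p q : E} (hp : p ∈ sphere (0 : E) 1) (hq : q ∈ sphere (0 : E) 1) (hpq : p ≠ q) {γ u : ℝ → E}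
    (hγ : IsGeod g γ u) (h0 : γ 0 = p) (h1 : γ 1 = q) :
    ∫ s in (0 : ℝ)..1, √(pull φ g' (γ s) (u s) (u s)) = rho g L p q := by
  have h2 := len_eq h (continuous_G0 hg.cont hφ.smooth) (fun w => Real.sqrt_nonneg _)
    (continuous_KP h hg.cont hφ.smooth)
    (fun p hp q hq hpq => KK_eq h hg.cont hφ.smooth hp hq hpq)
    (fun p hp q hq hpq => len_ge h hg hφ hd hp hq hpq) hfin hI hp hq hpq
  have h3 := len_ge h hg hφ hd hp hq hpq
  rw [← KP_eq h hγ h0 h1]
  exact le_antisymm h2 h3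

end Pool.Agent.W9h56.BE
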