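import Pool.Agent.H85.BE.Len

/-!
# The integrated comparison
-/

open Set Metric Filter Topology MeasureTheory
open scoped ContDiff RealInnerProductSpace ENNReal

noncomputable section

set_option maxSynthPendingDepth 3

namespace Pool.Agent.W9h56.BE

open Pool.Agent.W5h72.BR

variable {E : Type*} [NormedAddCommGroup E] [InnerProductSpace ℝ E] [FiniteDimensional ℝ E]

variable {g g' : E → E →L[ℝ] E →L[ℝ] ℝ} {e L e' L' : E → E → E} {φ : E → E}

omit [FiniteDimensional ℝ E] in
lemma continuousAt_uu (h : Simple g e L) {w : E × E} (hw : w ∈ UU) :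
    ContinuousAt (fun w : E × E => uu g L w.1 (proj w.2)) w := by
  have hpz := proj_mem hw.2
  have hne := ne_of_sphere hw.1 hpz
  have h1 : ContinuousAt (RR g L) (w.1, w.2) :=
    (h.contDiffAt_rho_proj (mem_of_norm_lt hw.1) hw.2 hne).continuousAt
  have h2 : ContinuousAt (fun w : E × E => (w.1, proj w.2)) w :=
    continuousAt_fst.prodMk ((contDiffAt_proj hw.2).continuousAt.comp continuousAt_snd)
  have h3 : ContinuousAt (fun w : E × E => L w.1 (proj w.2)) w :=
    ContinuousAt.comp (f := fun w : E × E => (w.1, proj w.2)) (g := fun w : E × E => L w.1 w.2)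
      h.L_smooth.continuous.continuousAt h2
  exact (h1.inv₀ (h.rho_pos (mem_of_norm_lt hw.1) (mem_of_sphere hpz) hne).ne').smul h3

/-- the integrand -/
def FF (g g' : E → E →L[ℝ] E →L[ℝ] ℝ) (L : E → E → E) (φ : E → E) (w : E × E) : ℝ :=
  √(pull φ g' w.1 (uu g L w.1 (proj w.2)) (uu g L w.1 (proj w.2)))

omit [FiniteDimensional ℝ E] in
lemma continuousAt_FF (h : Simple g e L) (hg : IsMetric g') (hφ : IsBdryMap φ) {w : E × E}
    (hw : w ∈ UU) : ContinuousAt (FF g g' L φ) w := by
  have h1 : ContinuousAt (fun w : E × E => pull φ g' w.1) w :=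
    (continuous_pull hg.cont hφ.smooth).continuousAt.comp continuousAt_fst
  have h2 := continuousAt_uu h hw
  exact ((h1.clm_apply h2).clm_apply h2).sqrt

variable [MeasurableSpace E] [BorelSpace E]

lemma measurableSet_S0 : MeasurableSet (S0 : Set E) :=
  measurableSet_ball.diff (measurableSet_singleton 0)

omit [InnerProductSpace ℝ E] [FiniteDimensional ℝ E] [BorelSpace E] [MeasurableSpace E] in
lemma sub_UU [NormedSpace ℝ E] : ball (0 : E) 1 ×ˢ (ball (0 : E) 1 \ {0}) ⊆ UU := by
  rintro ⟨x, z⟩ ⟨hx, hz⟩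
  exact ⟨by simpa using hx, fun h0 => hz.2 h0⟩

/-- swapping the integrals -/
lemma swap {f : E × E → ℝ≥0∞} (hf : ∀ w ∈ (UU : Set (E × E)), ContinuousAt f w) :
    ∫⁻ x in ball (0 : E) 1, ∫⁻ z in S0, f (x, z) =
      ∫⁻ z in S0, ∫⁻ x in ball (0 : E) 1, f (x, z) := by
  refine lintegral_lintegral_swap (f := fun x z => f (x, z)) ?_
  have h1 : ContinuousOn f (ball (0 : E) 1 ×ˢ S0) := fun w hw =>
    (hf w (sub_UU hw)).continuousWithinAt
  have h2 := h1.aemeasurable (μ := (volume : Measure E).prod volume)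
    (measurableSet_ball.prod measurableSet_S0)
  rw [← Measure.prod_restrict] at h2
  exact h2

/-- the integrated comparison -/
theorem ton (h : Simple g e L) (hg : IsMetric g') (hφ : IsBdryMap φ)
    (hd : ∀ p ∈ sphere (0 : E) 1, ∀ q ∈ sphere (0 : E) 1, gdist g p q ≤ gdist g' p q) :
    ∫⁻ x in ball (0 : E) 1, ∫⁻ z in S0, ENNReal.ofReal |(AA g L (x, z)).det| ≤
      ∫⁻ x in ball (0 : E) 1, ∫⁻ z in S0, ENNReal.ofReal |(AA g L (x, z)).det| *
        ENNReal.ofReal (FF g g' L φ (x, z)) := by
  have hA : ∀ w ∈ (UU : Set (E × E)), ContinuousAt (fun w => |(AA g L w).det|) w := fun w hw =>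
    (ContinuousLinearMap.continuous_det.continuousAt.comp (continuousAt_AA h hw)).abs
  have hA' : ∀ w ∈ (UU : Set (E × E)),
      ContinuousAt (fun w => ENNReal.ofReal |(AA g L w).det|) w := fun w hw =>
    ENNReal.continuous_ofReal.continuousAt.comp (hA w hw)
  have hAF : ∀ w ∈ (UU : Set (E × E)),
      ContinuousAt (fun w => ENNReal.ofReal |(AA g L w).det| *
        ENNReal.ofReal (FF g g' L φ w)) w := fun w hw => by
    have h1 : ContinuousAt (fun w => ENNReal.ofReal (|(AA g L w).det| * FF g g' L φ w)) w :=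
      ENNReal.continuous_ofReal.continuousAt.comp ((hA w hw).mul (continuousAt_FF h hg hφ hw))
    simpa only [ENNReal.ofReal_mul (abs_nonneg _)] using h1
  rw [swap hA', swap hAF]
  refine setLIntegral_mono' measurableSet_S0 fun z hz => ?_
  have hz0 : z ≠ 0 := fun h0 => hz.2 h0
  refine fix_z h hz0 (F := fun x => ENNReal.ofReal (FF g g' L φ (x, z))) ?_ ?_
  · have h1 : ContinuousOn (fun x => ENNReal.ofReal (FF g g' L φ (x, z))) (ball (0 : E) 1) := by
      intro x hx
      have h2 := continuousAt_FF h hg hφ (w := (x, z)) ⟨by simpa using hx, hz0⟩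
      have h3 : ContinuousAt (fun x => FF g g' L φ (x, z)) x :=
        ContinuousAt.comp (f := fun x => (x, z)) (g := FF g g' L φ) h2 (by fun_prop)
      exact (ENNReal.continuous_ofReal.continuousAt.comp h3).continuousWithinAt
    exact (continuousOn_iff_continuous_restrict.1 h1).measurable
  · intro q hq hpq
    exact len_le h hg hφ hd (proj_mem hz0) hq hpq

end Pool.Agent.W9h56.BE
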