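import Pool.Agent.H85.BE.Eq

/-!
# Equal boundary distances imply equal volumes
-/

open Set Metric Filter Topology MeasureTheory
open scoped ContDiff RealInnerProductSpace ENNReal

noncomputable section

set_option maxSynthPendingDepth 3

namespace Pool.Agent.W9h56.BE

open Pool.Agent.W5h72.BR

section general

variable {E : Type*} [NormedAddCommGroup E] [InnerProductSpace ℝ E] [FiniteDimensional ℝ E]

variable {g g' : E → E →L[ℝ] E →L[ℝ] ℝ} {e L e' L' : E → E → E}

lemma tau_eq (h : Simple g e L) (h' : Simple g' e' L')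
    (hd : ∀ p ∈ sphere (0 : E) 1, ∀ q ∈ sphere (0 : E) 1, rho g L p q = rho g' L' p q)
    {p q : E} (hp : p ∈ sphere (0 : E) 1) (hq : q ∈ sphere (0 : E) 1) (hpq : p ≠ q) :
    tau g L p q = tau g' L' p q := by
  refine ext_inner_right ℝ fun ζ => ?_
  rw [inner_tau, inner_tau]
  have h1 : inner ℝ p (ζ - inner ℝ p ζ • p) = 0 := by
    rw [inner_sub_right, inner_smul_right, real_inner_self_eq_norm_sq, norm_of_sphere hp]
    ring
  have h2 := h.dir_tan h' hd hp hq hpq h1
  simp only [Simple.dir, smul_apply, smul_eq_mul] at h2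
  simp only [uu]
  rw [map_smul (g p), map_smul (g' p), smul_apply, smul_apply, smul_eq_mul, smul_eq_mul, h2]

lemma Om_eq (h : Simple g e L) (h' : Simple g' e' L')
    (hd : ∀ p ∈ sphere (0 : E) 1, ∀ q ∈ sphere (0 : E) 1, rho g L p q = rho g' L' p q)
    {z : E} (hz : z ≠ 0) : Om g L z = Om g' L' z := by
  have hp := proj_mem hz
  ext y
  rw [mem_Om h hz, mem_Om h' hz]
  constructor
  · rintro ⟨q, hq, hpq, s, hs, hy⟩
    refine ⟨q, hq, hpq, s, ?_, ?_⟩
    · rw [← hd _ hp _ hq]; exact hs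
    · rw [← tau_eq h h' hd hp hq hpq]; exact hy
  · rintro ⟨q, hq, hpq, s, hs, hy⟩
    refine ⟨q, hq, hpq, s, ?_, ?_⟩
    · rw [hd _ hp _ hq]; exact hs
    · rw [tau_eq h h' hd hp hq hpq]; exact hy

variable [MeasurableSpace E] [BorelSpace E]

lemma total_eq (h : Simple g e L) (h' : Simple g' e' L')
    (hd : ∀ p ∈ sphere (0 : E) 1, ∀ q ∈ sphere (0 : E) 1, rho g L p q = rho g' L' p q) :
    ∫⁻ x in ball (0 : E) 1, ∫⁻ z in S0, ENNReal.ofReal |(AA g L (x, z)).det| =
      ∫⁻ x in ball (0 : E) 1, ∫⁻ z in S0, ENNReal.ofReal |(AA g' L' (x, z)).det| := by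
  have hA : ∀ {g : E → E →L[ℝ] E →L[ℝ] ℝ} {e L : E → E → E} (_ : Simple g e L),
      ∀ w ∈ (UU : Set (E × E)), ContinuousAt (fun w => ENNReal.ofReal |(AA g L w).det|) w :=
    fun h w hw => ENNReal.continuous_ofReal.continuousAt.comp
      (ContinuousLinearMap.continuous_det.continuousAt.comp (continuousAt_AA h hw)).abs
  rw [swap (hA h), swap (hA h')]
  refine setLIntegral_congr_fun measurableSet_S0 fun z hz => ?_
  have hz0 : z ≠ 0 := fun h0 => hz.2 h0
  rw [vol_z h hz0, vol_z h' hz0, Om_eq h h' hd hz0]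

end general

variable {E : Type*} [NormedAddCommGroup E] [InnerProductSpace ℝ E] [FiniteDimensional ℝ E]
  [MeasurableSpace E] [BorelSpace E]

variable {g g' : E → E →L[ℝ]
    E →L[ℝ] ℝ}
  {e L e' L' : E → E → E}
  {φ : E → E}


lemma total_vol (hn : 0 < Module.finrank ℝ E) (h : Simple g e L) :
    ∫⁻ x in ball (0 : E) 1, ∫⁻ z in S0, ENNReal.ofReal |(AA g L (x, z)).det| =
      ENNReal.ofReal (vol g * om E) := by
  have hgm := Simple_isMetric h
  obtain ⟨A, hA⟩ := exists_isFrame hgm
  have hom := om_pos (E := E)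
  have hcd := (continuous_dens hgm.cont).continuousOn (s := closedBall (0 : E) 1)
  have hb1 := lint_ball (f := fun x => dens (g x) * om E) (hcd.mul continuousOn_const)
    fun x hx => mul_nonneg (dens_pos hgm hx).le hom.le
  rw [vol, ← integral_mul_const, ← hb1]
  exact setLIntegral_congr_fun measurableSet_ball fun x hx => fix_one hn h hA (by simpa using hx)

/-- the boundary distances determine the volume -/
theorem vol_eq (hn : 0 < Module.finrank ℝ E) (h : Simple g e L) (h' : Simple g' e' L')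
    (hd : ∀ p ∈ sphere (0 : E) 1, ∀ q ∈ sphere (0 : E) 1, rho g L p q = rho g' L' p q) :
    vol g = vol g' := by
  have h1 := total_eq h h' hd
  have hom := om_pos (E := E)
  have hv : ∀ {g : E → E →L[ℝ] E →L[ℝ] ℝ}, 0 ≤ vol g := fun {g} =>
    setIntegral_nonneg measurableSet_closedBall fun x _ => dens_nonneg _
  rw [total_vol hn h, total_vol hn h', ENNReal.ofReal_eq_ofReal_iff (mul_nonneg hv hom.le)
    (mul_nonneg hv hom.le)] at h1
  exact mul_right_cancel₀ hom.ne' h1

end Pool.Agent.W9h56.BE
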